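import Mathlib

/-!
# Multiplication operators and twisted translations on `L²(ℂ)`
-/

namespace Pool.Agent.W2helper14.TF

open MeasureTheory Complex Filter Topology
open scoped ENNReal ComplexConjugate BoundedContinuousFunction

noncomputable section

/-- bounded continuous functions on the plane -/
abbrev Y := ℂ →ᵇ ℂ

section Mul
variable (μ : Measure ℂ)

/-- multiplication by an essentially bounded function on `L²(μ)` -/
def mulL : Lp ℂ ∞ μ →L[ℂ] Lp ℂ 2 μ →L[ℂ] Lp ℂ 2 μ :=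
  (ContinuousLinearMap.mul ℂ ℂ).holderL μ ∞ 2 2

variable {μ}

lemma mulL_coe (f : Lp ℂ ∞ μ) (u : Lp ℂ 2 μ) : mulL μ f u =ᵐ[μ] fun z => f z * u z := by
  have := (ContinuousLinearMap.mul ℂ ℂ).coeFn_holder (r := 2) f u
  simpa [mulL] using this

lemma memTop (f : Y) : MemLp (fun z => f z) ∞ μ :=
  memLp_top_of_bound (f.continuous.aestronglyMeasurable) ‖f‖ (ae_of_all _ f.norm_coe_le_norm)

/-- a bounded continuous function as an element of `L^∞` -/
def toInfL : Y →ₗ[ℂ] Lp ℂ ∞ μ where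
  toFun f := (memTop f).toLp _
  map_add' f g := by
    rw [← MemLp.toLp_add]; rfl
  map_smul' c f := by
    rw [RingHom.id_apply, ← MemLp.toLp_const_smul]; rfl

variable (μ) in
def toInf : Y →L[ℂ] Lp ℂ ∞ μ :=
  LinearMap.mkContinuous toInfL 1 (fun f => by
    rw [one_mul]
    have h : ‖(memTop (μ := μ) f).toLp _‖ ≤ ‖f‖ := by
      rw [Lp.norm_toLp]
      refine ENNReal.toReal_le_of_le_ofReal (norm_nonneg _) ?_
      rw [eLpNorm_exponent_top]
      refine eLpNormEssSup_le_of_ae_bound (ae_of_all _ f.norm_coe_le_norm)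
    exact h)

lemma toInf_coe (f : Y) : (toInf μ f : ℂ → ℂ) =ᵐ[μ] fun z => f z :=
  MemLp.coeFn_toLp (memTop f)

variable (μ) in
/-- multiplication by a bounded continuous function -/
def Mc : Y →L[ℂ] Lp ℂ 2 μ →L[ℂ] Lp ℂ 2 μ := (mulL μ).comp (toInf μ)

lemma Mc_coe (f : Y) (u : Lp ℂ 2 μ) : Mc μ f u =ᵐ[μ] fun z => f z * u z := by
  have h1 := mulL_coe (toInf μ f) u
  have h2 := toInf_coe (μ := μ) f
  have h3 : Mc μ f u = mulL μ (toInf μ f) u := rfl
  rw [h3]
  filter_upwards [h1, h2] with z h1 h2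
  rw [h1, h2]

lemma inner_eq (u v : Lp ℂ 2 μ) : inner ℂ u v = ∫ z, conj (u z) * v z ∂μ := by
  rw [L2.inner_def]
  refine integral_congr_ae (ae_of_all _ fun z => ?_)
  simp [RCLike.inner_apply, mul_comm]

lemma norm_sq_eq (u : Lp ℂ 2 μ) : ‖u‖ ^ 2 = ∫ z, ‖u z‖ ^ 2 ∂μ := by
  have h := inner_eq u u
  rw [inner_self_eq_norm_sq_to_K] at h
  have h2 : (∫ z, conj (u z) * u z ∂μ) = ((∫ z, ‖u z‖ ^ 2 ∂μ : ℝ) : ℂ) := by
    rw [← integral_complex_ofReal]
    refine integral_congr_ae (ae_of_all _ fun z => ?_)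
    simp only [Complex.conj_mul', Complex.ofReal_pow]
  rw [h2] at h
  have h3 := congrArg Complex.re h
  rw [Complex.ofReal_re] at h3
  rw [← h3]
  norm_cast

lemma integrable_sq (u : Lp ℂ 2 μ) : Integrable (fun z => ‖u z‖ ^ 2) μ :=
  (Lp.memLp u).integrable_norm_pow (by norm_num)

lemma norm_Mc_le (f : Y) (u : Lp ℂ 2 μ) : ‖Mc μ f u‖ ≤ ‖f‖ * ‖u‖ := by
  have h : ‖Mc μ f u‖ ^ 2 ≤ (‖f‖ * ‖u‖) ^ 2 := by
    rw [norm_sq_eq, mul_pow, norm_sq_eq u, ← integral_const_mul]
    refine integral_mono_ae (integrable_sq _) ((integrable_sq _).const_mul _) ?_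
    filter_upwards [Mc_coe f u] with z hz
    rw [hz, norm_mul, mul_pow]
    gcongr
    exact f.norm_coe_le_norm z
  exact (sq_le_sq₀ (norm_nonneg _) (by positivity)).1 h

end Mul

/-- the flat space `L²(ℂ)` -/
abbrev X0 := Lp ℂ 2 (volume : Measure ℂ)

/-- the phase `z ↦ exp (i s Im (z conj a))` -/
def ph (s : ℝ) (a : ℂ) : Y :=
  BoundedContinuousFunction.ofNormedAddCommGroup
    (fun z => Complex.exp (((s * (z * conj a).im : ℝ) : ℂ) * I)) (by fun_prop) 1
    (fun z => by rw [Complex.norm_exp_ofReal_mul_I])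

@[simp] lemma ph_apply (s : ℝ) (a z : ℂ) :
    ph s a z = Complex.exp (((s * (z * conj a).im : ℝ) : ℂ) * I) := rfl

lemma norm_ph_apply (s : ℝ) (a z : ℂ) : ‖ph s a z‖ = 1 := by
  rw [ph_apply, Complex.norm_exp_ofReal_mul_I]

lemma norm_ph_le (s : ℝ) (a : ℂ) : ‖ph s a‖ ≤ 1 :=
  (BoundedContinuousFunction.norm_le zero_le_one).2 fun z => (norm_ph_apply s a z).le

/-- translation by `a` -/
def tr (a : ℂ) : X0 →ₗᵢ[ℂ] X0 :=
  Lp.compMeasurePreservingₗᵢ ℂ (fun z => z - a) (measurePreserving_sub_right volume a)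

lemma tr_coe (a : ℂ) (u : X0) : tr a u =ᵐ[volume] fun z => u (z - a) :=
  Lp.coeFn_compMeasurePreserving u (measurePreserving_sub_right volume a)

lemma continuous_tr (u : X0) : Continuous fun a => tr a u := by
  have hg : Continuous fun a : ℂ => (⟨fun z => z - a, by fun_prop⟩ : C(ℂ, ℂ)) :=
    ContinuousMap.continuous_of_continuous_uncurry _ (by
      change Continuous fun p : ℂ × ℂ => p.2 - p.1
      fun_prop)
  exact Continuous.compMeasurePreservingLp (continuous_const (y := u)) hg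
    (fun a => measurePreserving_sub_right volume a) (by norm_num)

/-- strong continuity of multiplication by the phases -/
lemma continuous_ph_smul (s : ℝ) (w : X0) : Continuous fun a => Mc volume (ph s a) w := by
  rw [continuous_iff_continuousAt]
  intro a0
  rw [ContinuousAt, tendsto_iff_norm_sub_tendsto_zero]
  have key : Tendsto (fun a => ∫ z : ℂ, ‖ph s a z - ph s a0 z‖ ^ 2 * ‖w z‖ ^ 2) (𝓝 a0)
      (𝓝 (∫ _ : ℂ, (0 : ℝ))) := by
    refine tendsto_integral_filter_of_dominated_convergence (fun z => 4 * ‖w z‖ ^ 2)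
      (Eventually.of_forall fun a => ?_) (Eventually.of_forall fun a => ae_of_all _ fun z => ?_)
      ((integrable_sq w).const_mul _) (ae_of_all _ fun z => ?_)
    · refine AEStronglyMeasurable.mul ?_ (integrable_sq w).aestronglyMeasurable
      exact (((ph s a).continuous.sub (ph s a0).continuous).norm.pow 2).aestronglyMeasurable
    · rw [norm_mul, norm_pow, norm_norm, norm_pow, norm_norm]
      have h1 : ‖ph s a z - ph s a0 z‖ ≤ 2 := by
        refine (norm_sub_le _ _).trans ?_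
        rw [norm_ph_apply, norm_ph_apply]; norm_num
      have h2 : ‖ph s a z - ph s a0 z‖ ^ 2 ≤ 4 := by nlinarith [norm_nonneg (ph s a z - ph s a0 z)]
      exact mul_le_mul_of_nonneg_right h2 (by positivity)
    · have hc : Continuous fun a => ‖ph s a z - ph s a0 z‖ ^ 2 * ‖w z‖ ^ 2 := by
        simp only [ph_apply]
        fun_prop
      have := hc.tendsto a0
      simpa using this
  rw [integral_zero] at key
  have h2 : ∀ a, ‖Mc volume (ph s a) w - Mc volume (ph s a0) w‖ =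
      Real.sqrt (∫ z, ‖ph s a z - ph s a0 z‖ ^ 2 * ‖w z‖ ^ 2) := by
    intro a
    rw [← Real.sqrt_sq (norm_nonneg (Mc volume (ph s a) w - Mc volume (ph s a0) w)), norm_sq_eq]
    congr 1
    refine integral_congr_ae ?_
    filter_upwards [Lp.coeFn_sub (Mc volume (ph s a) w) (Mc volume (ph s a0) w),
      Mc_coe (ph s a) w, Mc_coe (ph s a0) w] with z h1 h2 h3
    rw [h1, Pi.sub_apply, h2, h3, ← sub_mul, norm_mul, mul_pow]
  simp_rw [h2]
  have := key.sqrt
  rwa [Real.sqrt_zero] at this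

/-- the twisted translation `u ↦ exp (i s Im (z conj a)) u (z - a)` -/
def tw (s : ℝ) (a : ℂ) : X0 →L[ℂ] X0 := (Mc volume (ph s a)).comp (tr a).toContinuousLinearMap

lemma tw_apply (s : ℝ) (a : ℂ) (u : X0) : tw s a u = Mc volume (ph s a) (tr a u) := rfl

lemma tw_coe (s : ℝ) (a : ℂ) (u : X0) : tw s a u =ᵐ[volume] fun z => ph s a z * u (z - a) := by
  filter_upwards [Mc_coe (ph s a) (tr a u), tr_coe a u] with z h1 h2
  rw [tw_apply, h1, h2]

lemma norm_tw_le (s : ℝ) (a : ℂ) (u : X0) : ‖tw s a u‖ ≤ ‖u‖ := by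
  rw [tw_apply]
  refine (norm_Mc_le _ _).trans ?_
  rw [(tr a).norm_map]
  exact mul_le_of_le_one_left (norm_nonneg _) (norm_ph_le s a)

lemma continuous_tw (s : ℝ) (u : X0) : Continuous fun a => tw s a u := by
  rw [continuous_iff_continuousAt]
  intro a0
  rw [ContinuousAt, tendsto_iff_norm_sub_tendsto_zero]
  have h1 : Tendsto (fun a => ‖tr a u - tr a0 u‖) (𝓝 a0) (𝓝 0) :=
    tendsto_iff_norm_sub_tendsto_zero.1 ((continuous_tr u).tendsto a0)
  have h2 : Tendsto (fun a => ‖Mc volume (ph s a) (tr a0 u) - Mc volume (ph s a0) (tr a0 u)‖)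
      (𝓝 a0) (𝓝 0) :=
    tendsto_iff_norm_sub_tendsto_zero.1 ((continuous_ph_smul s (tr a0 u)).tendsto a0)
  refine squeeze_zero (fun _ => norm_nonneg _) (fun a => ?_) (by simpa using h1.add h2)
  have : tw s a u - tw s a0 u = Mc volume (ph s a) (tr a u - tr a0 u) +
      (Mc volume (ph s a) (tr a0 u) - Mc volume (ph s a0) (tr a0 u)) := by
    rw [tw_apply, tw_apply, map_sub]; abel
  rw [this]
  refine (norm_add_le _ _).trans (add_le_add_left ?_ _)
  refine (norm_Mc_le _ _).trans (mul_le_of_le_one_left (norm_nonneg _) (norm_ph_le s a))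

end

end Pool.Agent.W2helper14.TF
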