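import Pool.Agent.W2helper14.TF.A

/-!
# The operators `Θ(F) = ∫ M_{F(y)} V_y dy`
-/

namespace Pool.Agent.W2helper14.TF

open MeasureTheory Complex Filter Topology
open scoped ENNReal ComplexConjugate BoundedContinuousFunction

noncomputable section

/-- the unitary operators `V_y` which commute with the Weyl operators -/
abbrev V (y : ℂ) : X0 →L[ℂ] X0 := tw (-1) y

lemma aesm_theta {F : ℂ → Y} (hF : Integrable F) (u : X0) :
    AEStronglyMeasurable (fun y => Mc volume (F y) (V y u)) volume := by
  exact (Mc volume).aestronglyMeasurable_comp₂ hF.1 (continuous_tw (-1) u).aestronglyMeasurable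

lemma norm_theta_le (F : ℂ → Y) (u : X0) (y : ℂ) :
    ‖Mc volume (F y) (V y u)‖ ≤ ‖F y‖ * ‖u‖ :=
  (norm_Mc_le _ _).trans (mul_le_mul_of_nonneg_left (norm_tw_le _ _ _) (norm_nonneg _))

lemma integrable_theta {F : ℂ → Y} (hF : Integrable F) (u : X0) :
    Integrable (fun y => Mc volume (F y) (V y u)) volume :=
  Integrable.mono' (hF.norm.mul_const ‖u‖) (aesm_theta hF u)
    (ae_of_all _ (norm_theta_le F u))

/-- `Θ(F) = ∫ M_{F(y)} V_y dy` -/
def Th (F : ℂ → Y) (hF : Integrable F) : X0 →L[ℂ] X0 :=
  LinearMap.mkContinuous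
    { toFun := fun u => ∫ y, Mc volume (F y) (V y u)
      map_add' := fun u v => by
        rw [← integral_add (integrable_theta hF u) (integrable_theta hF v)]
        refine integral_congr_ae (ae_of_all _ fun y => ?_)
        simp only [map_add]
      map_smul' := fun c u => by
        rw [RingHom.id_apply, ← integral_smul]
        refine integral_congr_ae (ae_of_all _ fun y => ?_)
        simp only [map_smul] }
    (∫ y, ‖F y‖) (fun u => by
      refine (norm_integral_le_of_norm_le (hF.norm.mul_const ‖u‖)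
        (ae_of_all _ (norm_theta_le F u))).trans ?_
      rw [integral_mul_const])

lemma Th_apply {F : ℂ → Y} (hF : Integrable F) (u : X0) :
    Th F hF u = ∫ y, Mc volume (F y) (V y u) := rfl

lemma norm_Th_le {F : ℂ → Y} (hF : Integrable F) : ‖Th F hF‖ ≤ ∫ y, ‖F y‖ :=
  LinearMap.mkContinuous_norm_le _ (integral_nonneg fun _ => norm_nonneg _) _

lemma Th_congr {F G : ℂ → Y} (hF : Integrable F) (hG : Integrable G) (h : F =ᵐ[volume] G) :
    Th F hF = Th G hG := by
  ext1 u
  rw [Th_apply, Th_apply]
  refine integral_congr_ae ?_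
  filter_upwards [h] with y hy
  rw [hy]

lemma Th_add {F G : ℂ → Y} (hF : Integrable F) (hG : Integrable G) :
    Th (fun y => F y + G y) (hF.add hG) = Th F hF + Th G hG := by
  ext1 u
  rw [add_apply, Th_apply, Th_apply, Th_apply,
    ← integral_add (integrable_theta hF u) (integrable_theta hG u)]
  refine integral_congr_ae (ae_of_all _ fun y => ?_)
  simp only [map_add, add_apply]

lemma Th_sub {F G : ℂ → Y} (hF : Integrable F) (hG : Integrable G) :
    Th (fun y => F y - G y) (hF.sub hG) = Th F hF - Th G hG := by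
  ext1 u
  rw [sub_apply, Th_apply, Th_apply, Th_apply,
    ← integral_sub (integrable_theta hF u) (integrable_theta hG u)]
  refine integral_congr_ae (ae_of_all _ fun y => ?_)
  simp only [map_sub, sub_apply]

lemma Th_smul {F : ℂ → Y} (c : ℂ) (hF : Integrable F) :
    Th (fun y => c • F y) (hF.smul c) = c • Th F hF := by
  ext1 u
  rw [smul_apply, Th_apply, Th_apply, ← integral_smul]
  refine integral_congr_ae (ae_of_all _ fun y => ?_)
  simp only [map_smul, smul_apply]

lemma Mc_mul (f g : Y) (u : X0) : Mc volume (f * g) u = Mc volume f (Mc volume g u) := by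
  apply Lp.ext
  filter_upwards [Mc_coe (f * g) u, Mc_coe f (Mc volume g u), Mc_coe g u] with z h1 h2 h3
  rw [h1, h2, h3, BoundedContinuousFunction.mul_apply, mul_assoc]

lemma Mc_one (u : X0) : Mc volume 1 u = u := by
  apply Lp.ext
  filter_upwards [Mc_coe 1 u] with z h1
  rw [h1]; exact one_mul _

/-- the left factor can be pulled out -/
lemma Mc_Th (c : Y) {F : ℂ → Y} (hF : Integrable F) (hcF : Integrable fun y => c * F y) :
    (Mc volume c).comp (Th F hF) = Th (fun y => c * F y) hcF := by
  ext1 u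
  rw [ContinuousLinearMap.comp_apply, Th_apply, Th_apply,
    ← ContinuousLinearMap.integral_comp_comm _ (integrable_theta hF u)]
  refine integral_congr_ae (ae_of_all _ fun y => ?_)
  simp only [Mc_mul]

lemma integrable_const_mul' (c : Y) {F : ℂ → Y} (hF : Integrable F) :
    Integrable fun y => c * F y := hF.const_mul c

/-- covariance: `M_χ V_y M_χ⁻¹ = χ(y) V_y` -/
lemma ph_V (w y : ℂ) (u : X0) :
    Mc volume (ph 1 w) (V y (Mc volume (ph (-1) w) u)) = ph 1 w y • V y u := by
  apply Lp.ext
  have h0 : ∀ᵐ z : ℂ, (Mc volume (ph (-1) w) u) (z - y) = ph (-1) w (z - y) * u (z - y) :=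
    (measurePreserving_sub_right volume y).quasiMeasurePreserving.tendsto_ae (Mc_coe (ph (-1) w) u)
  filter_upwards [Mc_coe (ph 1 w) (V y (Mc volume (ph (-1) w) u)),
    tw_coe (-1) y (Mc volume (ph (-1) w) u), h0, Lp.coeFn_smul (ph 1 w y) (V y u),
    tw_coe (-1) y u] with z h1 h2 h3 h4 h5
  rw [h1, h2, h3, h4, Pi.smul_apply, h5, smul_eq_mul]
  simp only [ph_apply]
  have : cexp (((1 * (z * conj w).im : ℝ) : ℂ) * I) * cexp (((-1 * ((z - y) * conj w).im : ℝ) : ℂ) * I)
      = cexp (((1 * (y * conj w).im : ℝ) : ℂ) * I) := by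
    rw [← Complex.exp_add]
    congr 1
    rw [← add_mul, ← Complex.ofReal_add]
    congr 2
    rw [sub_mul, Complex.sub_im]
    ring
  rw [← this]
  ring

/-- conjugation of `Θ(h)` by a character -/
lemma ph_Th (w : ℂ) {F : ℂ → Y} (hF : Integrable F)
    (hG : Integrable fun y => ph 1 w y • F y) :
    (Mc volume (ph 1 w)).comp ((Th F hF).comp (Mc volume (ph (-1) w))) =
      Th (fun y => ph 1 w y • F y) hG := by
  ext1 u
  rw [ContinuousLinearMap.comp_apply, ContinuousLinearMap.comp_apply, Th_apply, Th_apply,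
    ← ContinuousLinearMap.integral_comp_comm _ (integrable_theta hF _)]
  refine integral_congr_ae (ae_of_all _ fun y => ?_)
  simp only
  rw [← Mc_mul, mul_comm (ph 1 w) (F y), Mc_mul, ph_V, map_smul, map_smul,
    smul_apply]

/-- weak formula -/
lemma inner_Th {F : ℂ → Y} (hF : Integrable F) (u v : X0) :
    inner ℂ v (Th F hF u) = ∫ y, inner ℂ v (Mc volume (F y) (V y u)) := by
  rw [Th_apply]
  exact (integral_inner (𝕜 := ℂ) (integrable_theta hF u) v).symm

lemma inner_Mc_V (f : Y) (y : ℂ) (u v : X0) :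
    inner ℂ v (Mc volume f (V y u)) = ∫ z, conj (v z) * (f z * (ph (-1) y z * u (z - y))) := by
  rw [inner_eq]
  refine integral_congr_ae ?_
  filter_upwards [Mc_coe f (V y u), tw_coe (-1) y u] with z h1 h2
  rw [h1, h2]

end

end Pool.Agent.W2helper14.TF
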