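import Pool.Agent.W2helper14.TF.B

/-!
# Modulations of an a.e. nonzero integrable function span a dense subspace of `L¹(ℂ)`
-/

namespace Pool.Agent.W2helper14.TF

open MeasureTheory Complex Filter Topology
open scoped ENNReal ComplexConjugate BoundedContinuousFunction

noncomputable section

lemma inner_eq_im (x t : ℂ) : (inner ℝ x t : ℝ) = (x * conj (-I * t)).im := by
  rw [Complex.inner]
  simp only [map_mul, map_neg, conj_I, mul_re, mul_im, conj_re, conj_im, neg_re, neg_im, I_re, I_im]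
  ring

lemma integrable_mul_ph {G : ℂ → ℂ} (hG : Integrable G) (w : ℂ) :
    Integrable fun z => G z * ph 1 w z :=
  hG.mul_bdd (c := 1) (ph 1 w).continuous.aestronglyMeasurable
    (ae_of_all _ fun z => (norm_ph_apply 1 w z).le)

lemma uniq_real (g : ℂ → ℝ) (hg : Integrable g)
    (h : ∀ w, ∫ z, (g z : ℂ) * ph 1 w z = 0) : g =ᵐ[volume] 0 := by
  have hm : AEMeasurable (fun z => ENNReal.ofReal (g z)) volume := hg.aemeasurable.ennreal_ofReal
  have hm' : AEMeasurable (fun z => ENNReal.ofReal (-g z)) volume :=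
    hg.neg.aemeasurable.ennreal_ofReal
  have : IsFiniteMeasure (volume.withDensity fun z => ENNReal.ofReal (g z)) :=
    isFiniteMeasure_withDensity_ofReal hg.2
  have : IsFiniteMeasure (volume.withDensity fun z => ENNReal.ofReal (-g z)) :=
    isFiniteMeasure_withDensity_ofReal hg.neg.2
  have hpos : Integrable fun z => ((max (g z) 0 : ℝ) : ℂ) := hg.pos_part.ofReal
  have hneg : Integrable fun z => ((max (-g z) 0 : ℝ) : ℂ) := hg.neg_part.ofReal
  have heq : (volume.withDensity fun z => ENNReal.ofReal (g z)) =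
      volume.withDensity fun z => ENNReal.ofReal (-g z) := by
    refine Measure.ext_of_charFun ?_
    funext t
    rw [charFun_apply, charFun_apply,
      integral_withDensity_eq_integral_toReal_smul₀ hm (ae_of_all _ fun _ => ENNReal.ofReal_lt_top),
      integral_withDensity_eq_integral_toReal_smul₀ hm' (ae_of_all _ fun _ => ENNReal.ofReal_lt_top)]
    have e1 : ∀ z : ℂ, (ENNReal.ofReal (g z)).toReal • cexp ((inner ℝ z t : ℝ) * I) =
        ((max (g z) 0 : ℝ) : ℂ) * ph 1 (-I * t) z := by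
      intro z
      rw [ENNReal.toReal_ofReal', Complex.real_smul, ph_apply, inner_eq_im, one_mul]
    have e2 : ∀ z : ℂ, (ENNReal.ofReal (-g z)).toReal • cexp ((inner ℝ z t : ℝ) * I) =
        ((max (-g z) 0 : ℝ) : ℂ) * ph 1 (-I * t) z := by
      intro z
      rw [ENNReal.toReal_ofReal', Complex.real_smul, ph_apply, inner_eq_im, one_mul]
    simp_rw [e1, e2]
    rw [← sub_eq_zero, ← integral_sub (integrable_mul_ph hpos _) (integrable_mul_ph hneg _),
      ← h (-I * t)]
    refine integral_congr_ae (ae_of_all _ fun z => ?_)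
    simp only
    rw [← sub_mul, ← Complex.ofReal_sub]
    congr 3
    rcases le_total 0 (g z) with h1 | h1
    · rw [max_eq_left h1, max_eq_right (by linarith)]; ring
    · rw [max_eq_right h1, max_eq_left (by linarith)]; ring
  have hfin : ∫⁻ z, ENNReal.ofReal (g z) ≠ ∞ := by
    have := measure_ne_top (volume.withDensity fun z => ENNReal.ofReal (g z)) Set.univ
    rwa [withDensity_apply _ MeasurableSet.univ, setLIntegral_univ] at this
  have h3 := (withDensity_eq_iff hm hm' hfin).1 heq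
  filter_upwards [h3] with z hz
  rcases lt_trichotomy (g z) 0 with h1 | h1 | h1
  · rw [ENNReal.ofReal_of_nonpos h1.le] at hz
    have := ENNReal.ofReal_pos.2 (neg_pos.2 h1)
    rw [← hz] at this
    exact absurd this (lt_irrefl _)
  · exact h1
  · have h4 : ENNReal.ofReal (-g z) = 0 := ENNReal.ofReal_of_nonpos (by linarith)
    rw [h4] at hz
    have := ENNReal.ofReal_pos.2 h1
    rw [hz] at this
    exact absurd this (lt_irrefl _)

lemma conj_ph (w z : ℂ) : conj (ph 1 w z) = ph 1 (-w) z := by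
  rw [ph_apply, ph_apply, ← Complex.exp_conj]
  congr 1
  rw [map_mul, conj_I, Complex.conj_ofReal, map_neg,
    show z * -(starRingEnd ℂ) w = -(z * (starRingEnd ℂ) w) by ring, Complex.neg_im]
  push_cast
  ring

lemma uniq_cplx (G : ℂ → ℂ) (hG : Integrable G)
    (h : ∀ w, ∫ z, G z * ph 1 w z = 0) : G =ᵐ[volume] 0 := by
  have hc : ∀ w, ∫ z, conj (G z) * ph 1 w z = 0 := by
    intro w
    have h1 := congrArg conj (h (-w))
    rw [map_zero, ← integral_conj] at h1
    rw [← h1]
    refine integral_congr_ae (ae_of_all _ fun z => ?_)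
    simp only
    rw [map_mul, conj_ph, neg_neg]
  have hGc : Integrable fun z => conj (G z) := by
    exact (Complex.conjCLE : ℂ →L[ℝ] ℂ).integrable_comp hG
  have hre : (fun z => (G z).re) =ᵐ[volume] 0 := by
    refine uniq_real _ hG.re fun w => ?_
    have : ∀ z, (((G z).re : ℝ) : ℂ) * ph 1 w z =
        (1 / 2) * (G z * ph 1 w z + conj (G z) * ph 1 w z) := by
      intro z
      rw [Complex.re_eq_add_conj]; ring
    simp_rw [this]
    rw [integral_const_mul, integral_add (integrable_mul_ph hG w) (integrable_mul_ph hGc w), h, hc]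
    simp
  have him : (fun z => (G z).im) =ᵐ[volume] 0 := by
    refine uniq_real _ hG.im fun w => ?_
    have : ∀ z, (((G z).im : ℝ) : ℂ) * ph 1 w z =
        (1 / (2 * I)) * (G z * ph 1 w z - conj (G z) * ph 1 w z) := by
      intro z
      rw [Complex.im_eq_sub_conj]; ring
    simp_rw [this]
    rw [integral_const_mul, integral_sub (integrable_mul_ph hG w) (integrable_mul_ph hGc w), h, hc]
    simp
  filter_upwards [hre, him] with z h1 h2
  exact Complex.ext h1 h2

/-- Density of the modulations of a function which is nonzero almost everywhere. -/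
theorem density (κ : ℂ → ℂ) (hκ : Integrable κ volume) (h0 : ∀ᵐ z, κ z ≠ 0)
    (𝒱 : Submodule ℂ (ℂ →₁[volume] ℂ)) (hcl : IsClosed (𝒱 : Set (ℂ →₁[volume] ℂ)))
    (hch : ∀ w, (integrable_mul_ph hκ w).toL1 _ ∈ 𝒱) (h : ℂ → ℂ) (hh : Integrable h volume) :
    hh.toL1 h ∈ 𝒱 := by
  set ρ : ℂ → ℂ := fun z => ((Real.sqrt ‖κ z‖ : ℝ) : ℂ) with hρ
  have hρm : AEStronglyMeasurable ρ volume := by
    have : AEStronglyMeasurable (fun z => Real.sqrt ‖κ z‖) volume :=
      Real.continuous_sqrt.comp_aestronglyMeasurable hκ.1.norm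
    exact Complex.continuous_ofReal.comp_aestronglyMeasurable this
  have hρn : ∀ z, ‖ρ z‖ ^ 2 = ‖κ z‖ := by
    intro z
    rw [hρ]
    simp only
    rw [Complex.norm_real, Real.norm_eq_abs, sq_abs, Real.sq_sqrt (norm_nonneg _)]
  have hρ2 : MemLp ρ 2 volume := by
    rw [memLp_two_iff_integrable_sq_norm hρm]
    simp_rw [hρn]
    exact hκ.norm
  have hρ0 : ∀ᵐ z, ρ z ≠ 0 := by
    filter_upwards [h0] with z hz h1
    have := hρn z
    rw [h1] at this
    simp at this
    exact hz (norm_eq_zero.1 this.symm)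
  set ρL : X0 := hρ2.toLp ρ
  set J : X0 →L[ℂ] (ℂ →₁[volume] ℂ) :=
    ((ContinuousLinearMap.mul ℂ ℂ).holderL volume 2 2 1).flip ρL with hJ
  have hJc : ∀ ψ : X0, J ψ =ᵐ[volume] fun z => ψ z * ρ z := by
    intro ψ
    have h1 := (ContinuousLinearMap.mul ℂ ℂ).coeFn_holder (r := 1) ψ ρL
    have h2 : ρL =ᵐ[volume] ρ := MemLp.coeFn_toLp hρ2
    have h3 : J ψ = (ContinuousLinearMap.mul ℂ ℂ).holder 1 ψ ρL := rfl
    rw [h3]
    filter_upwards [h1, h2] with z h1 h2
    rw [h1, h2]; rfl
  set 𝒲 : Submodule ℂ X0 := 𝒱.comap (J : X0 →ₗ[ℂ] (ℂ →₁[volume] ℂ)) with h𝒲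
  have hWcl : IsClosed (𝒲 : Set X0) := hcl.preimage J.continuous
  -- the functions `χ_w κ / ρ`
  have hq : ∀ w, MemLp (fun z => ph 1 w z * (κ z / ρ z)) 2 volume := by
    intro w
    refine MemLp.mono hρ2 ?_ ?_
    · exact ((ph 1 w).continuous.aestronglyMeasurable).mul
        (hκ.1.aemeasurable.div hρm.aemeasurable).aestronglyMeasurable
    · filter_upwards [hρ0] with z hz
      rw [norm_mul, norm_ph_apply, one_mul, norm_div, ← hρn z]
      have : ‖ρ z‖ ≠ 0 := norm_ne_zero_iff.2 hz
      rw [pow_two, mul_div_assoc, div_self this, mul_one]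
  have hqW : ∀ w, (hq w).toLp _ ∈ 𝒲 := by
    intro w
    rw [h𝒲, Submodule.mem_comap]
    have : (J : X0 →ₗ[ℂ] (ℂ →₁[volume] ℂ)) ((hq w).toLp _) = (integrable_mul_ph hκ w).toL1 _ := by
      apply Lp.ext
      filter_upwards [hJc ((hq w).toLp _), MemLp.coeFn_toLp (hq w),
        (integrable_mul_ph hκ w).coeFn_toL1, hρ0] with z h1 h2 h3 h4
      change (J ((hq w).toLp _)) z = _
      rw [h1, h2, h3]
      field_simp
    rw [this]
    exact hch w
  have hWtop : 𝒲 = ⊤ := by
    have : CompleteSpace 𝒲 := hWcl.completeSpace_coe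
    rw [← Submodule.orthogonal_eq_bot_iff, Submodule.eq_bot_iff]
    intro F hF
    have hz : ∀ w, ∫ z, (conj (F z) * (κ z / ρ z)) * ph 1 w z = 0 := by
      intro w
      have h1 := Submodule.inner_left_of_mem_orthogonal (hqW w) hF
      rw [inner_eq] at h1
      rw [← h1]
      refine integral_congr_ae ?_
      filter_upwards [MemLp.coeFn_toLp (hq w)] with z h2
      rw [h2]; ring
    have hκρ : MemLp (fun z => κ z / ρ z) 2 volume := by
      have := hq 0
      refine this.ae_eq (ae_of_all _ fun z => ?_)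
      simp [ph_apply]
    have hFc : MemLp (fun z => conj (F z)) 2 volume := by
      refine (Lp.memLp F).of_le ?_ (ae_of_all _ fun z => ?_)
      · exact Complex.continuous_conj.comp_aestronglyMeasurable (Lp.aestronglyMeasurable F)
      · rw [RCLike.norm_conj]
    have hGi : Integrable (fun z => conj (F z) * (κ z / ρ z)) := hFc.integrable_mul hκρ
    have h2 := uniq_cplx _ hGi hz
    apply Lp.ext
    filter_upwards [h2, h0, hρ0, Lp.coeFn_zero ℂ 2 (volume : Measure ℂ)] with z h3 h4 h5 h6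
    rw [h6, Pi.zero_apply]
    have h7 : κ z / ρ z ≠ 0 := div_ne_zero h4 h5
    have h8 : conj (F z) = 0 := by
      rcases mul_eq_zero.1 h3 with h | h
      · exact h
      · exact absurd h h7
    simpa using h8
  -- approximation of a general function
  have hmS : ∀ N : ℕ, NullMeasurableSet {z | ‖h z‖ ≤ N * ‖κ z‖} volume := fun N =>
    nullMeasurableSet_le hh.1.norm.aemeasurable (hκ.1.norm.aemeasurable.const_mul _)
  have hψ : ∀ N : ℕ, MemLp ({z | ‖h z‖ ≤ N * ‖κ z‖}.indicator fun z => h z / ρ z) 2 volume := by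
    intro N
    refine MemLp.of_le_mul (c := N) hρ2 ?_ ?_
    · exact AEStronglyMeasurable.indicator₀
        (hh.1.aemeasurable.div hρm.aemeasurable).aestronglyMeasurable (hmS N)
    · filter_upwards [hρ0] with z hz
      have hp : 0 < ‖ρ z‖ := norm_pos_iff.2 hz
      by_cases hz2 : z ∈ {z | ‖h z‖ ≤ N * ‖κ z‖}
      · rw [Set.indicator_of_mem hz2, norm_div, div_le_iff₀ hp]
        have h3 : ‖h z‖ ≤ N * ‖κ z‖ := hz2
        rw [← hρn z] at h3
        calc ‖h z‖ ≤ _ := h3
          _ = _ := by ring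
      · rw [Set.indicator_of_notMem hz2, norm_zero]
        positivity
  have hfi : ∀ N : ℕ, Integrable ({z | ‖h z‖ ≤ N * ‖κ z‖}.indicator h) := by
    intro N
    exact hh.indicator₀ (hmS N)
  have hmem : ∀ N : ℕ, (hfi N).toL1 _ ∈ 𝒱 := by
    intro N
    have h1 : (hψ N).toLp _ ∈ 𝒲 := by rw [hWtop]; trivial
    rw [h𝒲, Submodule.mem_comap] at h1
    have h2 : (J : X0 →ₗ[ℂ] (ℂ →₁[volume] ℂ)) ((hψ N).toLp _) = (hfi N).toL1 _ := by
      apply Lp.ext
      filter_upwards [hJc ((hψ N).toLp _), MemLp.coeFn_toLp (hψ N), (hfi N).coeFn_toL1, hρ0]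
        with z h1 h2 h3 h4
      change (J ((hψ N).toLp _)) z = _
      rw [h1, h2, h3]
      by_cases hz2 : z ∈ {z | ‖h z‖ ≤ N * ‖κ z‖}
      · rw [Set.indicator_of_mem hz2, Set.indicator_of_mem hz2]
        field_simp
      · rw [Set.indicator_of_notMem hz2, Set.indicator_of_notMem hz2, zero_mul]
    rwa [h2] at h1
  refine hcl.mem_of_tendsto (b := atTop) (f := fun N : ℕ => (hfi N).toL1 _) ?_
    (Eventually.of_forall hmem)
  rw [tendsto_iff_norm_sub_tendsto_zero]
  have h5 : ∀ N : ℕ, ‖(hfi N).toL1 _ - hh.toL1 h‖ =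
      ∫ z, ‖({z | ‖h z‖ ≤ N * ‖κ z‖}.indicator h z) - h z‖ := by
    intro N
    rw [← Integrable.toL1_sub, L1.norm_of_fun_eq_integral_norm]
    rfl
  simp_rw [h5]
  have h6 : Tendsto (fun N : ℕ => ∫ z, ‖({z | ‖h z‖ ≤ N * ‖κ z‖}.indicator h z) - h z‖) atTop
      (𝓝 (∫ _ : ℂ, (0 : ℝ))) := by
    refine tendsto_integral_of_dominated_convergence (fun z => ‖h z‖)
      (fun N => ((hfi N).1.sub hh.1).norm) hh.norm (fun N => ae_of_all _ fun z => ?_) ?_
    · rw [norm_norm]
      by_cases hz2 : z ∈ {z | ‖h z‖ ≤ N * ‖κ z‖}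
      · rw [Set.indicator_of_mem hz2, sub_self, norm_zero]; positivity
      · rw [Set.indicator_of_notMem hz2, zero_sub, norm_neg]
    · filter_upwards [h0] with z hz
      refine tendsto_const_nhds.congr' ?_
      have hp : 0 < ‖κ z‖ := norm_pos_iff.2 hz
      obtain ⟨N0, hN0⟩ := exists_nat_ge (‖h z‖ / ‖κ z‖)
      filter_upwards [eventually_ge_atTop N0] with N hN
      have hz2 : z ∈ {z | ‖h z‖ ≤ N * ‖κ z‖} := by
        have : ‖h z‖ / ‖κ z‖ ≤ N := hN0.trans (by exact_mod_cast hN)
        rwa [div_le_iff₀ hp] at this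
      rw [Set.indicator_of_mem hz2, sub_self, norm_zero]
  rwa [integral_zero] at h6

end

end Pool.Agent.W2helper14.TF
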