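import Pool.Agent.W2helper14.TF.C

/-!
# Fubini for `Θ(F)`, the kernel of `P`, and the closed span of products of two Toeplitz operators
-/

namespace Pool.Agent.W2helper14.TF

open MeasureTheory Complex Filter Topology
open scoped ENNReal ComplexConjugate BoundedContinuousFunction

noncomputable section

/-- the Weyl operators -/
abbrev W (a : ℂ) : X0 →L[ℂ] X0 := tw 1 a

lemma integral_norm_mul_le (u v : X0) : ∫ z, ‖v z‖ * ‖u z‖ ≤ ‖v‖ * ‖u‖ := by
  have hpq : (2 : ℝ).HolderConjugate 2 := Real.HolderConjugate.two_two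
  have h := integral_mul_norm_le_Lp_mul_Lq (μ := (volume : Measure ℂ)) (f := fun z => v z)
    (g := fun z => u z) hpq (by simpa using Lp.memLp v) (by simpa using Lp.memLp u)
  refine h.trans (le_of_eq ?_)
  have h1 : ∀ w : X0, (∫ z, ‖w z‖ ^ (2 : ℝ)) ^ (1 / (2 : ℝ)) = ‖w‖ := by
    intro w
    have : (∫ z, ‖w z‖ ^ (2 : ℝ)) = ‖w‖ ^ 2 := by
      rw [norm_sq_eq]
      refine integral_congr_ae (ae_of_all _ fun z => ?_)
      simp
    rw [this, ← Real.sqrt_eq_rpow, Real.sqrt_sq (norm_nonneg _)]
  rw [h1 v, h1 u]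

/-- joint integrability of the integrand of `⟨v, Θ(F) u⟩` -/
lemma fub {F : ℂ → Y} (hF : Integrable F)
    (hm : AEStronglyMeasurable (fun p : ℂ × ℂ => F p.1 p.2) (volume.prod volume)) (u v : X0) :
    Integrable (fun p : ℂ × ℂ => conj (v p.2) * (F p.1 p.2 * (ph (-1) p.1 p.2 * u (p.2 - p.1))))
      (volume.prod volume) := by
  have hv : AEStronglyMeasurable (fun p : ℂ × ℂ => conj (v p.2)) (volume.prod volume) :=
    Complex.continuous_conj.comp_aestronglyMeasurable
      ((Lp.stronglyMeasurable v).comp_measurable measurable_snd).aestronglyMeasurable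
  have hu : AEStronglyMeasurable (fun p : ℂ × ℂ => u (p.2 - p.1)) (volume.prod volume) :=
    ((Lp.stronglyMeasurable u).comp_measurable
      (measurable_snd.sub measurable_fst)).aestronglyMeasurable
  have hph : AEStronglyMeasurable (fun p : ℂ × ℂ => ph (-1) p.1 p.2) (volume.prod volume) := by
    refine Continuous.aestronglyMeasurable ?_
    simp only [ph_apply]
    fun_prop
  have hM := hv.mul (hm.mul (hph.mul hu))
  refine (integrable_prod_iff hM).2 ⟨ae_of_all _ fun y => ?_, ?_⟩
  · have h1 := L2.integrable_inner (𝕜 := ℂ) v (Mc volume (F y) (V y u))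
    refine h1.congr ?_
    filter_upwards [Mc_coe (F y) (V y u), tw_coe (-1) y u] with z h1 h2
    rw [RCLike.inner_apply, h1, h2]
    simp only [Pi.mul_apply]
    ring
  · refine Integrable.mono' ((hF.norm.mul_const ‖u‖).const_mul ‖v‖) hM.norm.integral_prod_right'
      (ae_of_all _ fun y => ?_)
    rw [Real.norm_of_nonneg (integral_nonneg fun _ => norm_nonneg _)]
    have h2 : ∫ z, ‖((fun p : ℂ × ℂ => conj (v p.2)) * ((fun p : ℂ × ℂ => F p.1 p.2) *
        ((fun p : ℂ × ℂ => ph (-1) p.1 p.2) * fun p : ℂ × ℂ => u (p.2 - p.1)))) (y, z)‖ =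
        ∫ z, ‖v z‖ * ‖(Mc volume (F y) (V y u)) z‖ := by
      refine integral_congr_ae ?_
      filter_upwards [Mc_coe (F y) (V y u), tw_coe (-1) y u] with z h1 h2
      rw [h1, h2]
      simp only [Pi.mul_apply, norm_mul, RCLike.norm_conj]
    rw [h2]
    refine (integral_norm_mul_le _ _).trans ?_
    exact mul_le_mul_of_nonneg_left (norm_theta_le F u y) (norm_nonneg _)

lemma inner_Th' {F : ℂ → Y} (hF : Integrable F)
    (hm : AEStronglyMeasurable (fun p : ℂ × ℂ => F p.1 p.2) (volume.prod volume)) (u v : X0) :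
    inner ℂ v (Th F hF u) =
      ∫ z, conj (v z) * ∫ x, (F (z - x) z * (ph (-1) (z - x) z * u x)) := by
  rw [inner_Th]
  simp_rw [inner_Mc_V]
  rw [integral_integral_swap (fub hF hm u v)]
  refine integral_congr_ae (ae_of_all _ fun z => ?_)
  simp only
  rw [integral_const_mul]
  congr 1
  have := integral_sub_left_eq_self (fun y => F y z * (ph (-1) y z * u (z - y))) volume z
  rw [← this]
  refine integral_congr_ae (ae_of_all _ fun x => ?_)
  simp only [sub_sub_cancel]

section Proj

variable (κ : ℂ → ℂ) (hκ : Integrable κ volume)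

lemma int_smul_one {h : ℂ → ℂ} (hh : Integrable h volume) (c : Y) :
    Integrable fun y => h y • c := hh.smul_const c

/-- the operator `P = ∫ κ(y) V_y dy` -/
def PP : X0 →L[ℂ] X0 := Th (fun y => κ y • (1 : Y)) (int_smul_one hκ 1)

variable {κ}

lemma phase_eq (z x : ℂ) : ph (-1) (z - x) z = conj (ph 1 z x) := by
  rw [ph_apply, ph_apply, ← Complex.exp_conj, map_mul, conj_I, Complex.conj_ofReal]
  congr 1
  have : (-1 * (z * conj (z - x)).im : ℝ) = -(1 * (x * conj z).im) := by
    rw [map_sub, mul_sub, Complex.sub_im]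
    simp only [mul_im, conj_re, conj_im]
    ring
  rw [this]
  push_cast
  ring

/-- `P` is an integral operator: `(P w)(z) = ⟨W_z κ, w⟩` -/
lemma inner_PP (hκ2 : MemLp κ 2 volume) (hsym : ∀ z, conj (κ (-z)) = κ z) (u v : X0) :
    inner ℂ v (PP κ hκ u) = ∫ z, conj (v z) * inner ℂ (W z (hκ2.toLp κ)) u := by
  rw [PP, inner_Th' _ ?_]
  · refine integral_congr_ae (ae_of_all _ fun z => ?_)
    simp only
    congr 1
    rw [inner_eq]
    refine integral_congr_ae ?_
    have h0 : ∀ᵐ x : ℂ, (hκ2.toLp κ : ℂ → ℂ) (x - z) = κ (x - z) :=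
      (measurePreserving_sub_right volume z).quasiMeasurePreserving.tendsto_ae
        (MemLp.coeFn_toLp hκ2)
    filter_upwards [tw_coe 1 z (hκ2.toLp κ), h0] with x h1 h2
    rw [h1, h2, map_mul, phase_eq]
    have h3 : conj (κ (x - z)) = κ (z - x) := by
      have := hsym (z - x)
      rwa [neg_sub] at this
    rw [h3]
    change (κ (z - x) • (1 : ℂ)) * _ = _
    rw [smul_eq_mul, mul_one]
    ring
  · have : (fun p : ℂ × ℂ => (κ p.1 • (1 : Y)) p.2) = fun p : ℂ × ℂ => κ p.1 := by
      funext p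
      change κ p.1 • (1 : ℂ) = _
      rw [smul_eq_mul, mul_one]
    rw [this]
    exact hκ.1.comp_fst

variable (κ)

/-- the closed linear span of the products of two Toeplitz operators (with bounded continuous
symbols) -/
def SS : Submodule ℂ (X0 →L[ℂ] X0) :=
  (Submodule.span ℂ {T | ∃ f g : Y, T = (PP κ hκ).comp ((Mc volume f).comp
    ((PP κ hκ).comp ((Mc volume g).comp (PP κ hκ))))}).topologicalClosure

lemma mem_SS (f g : Y) : (PP κ hκ).comp ((Mc volume f).comp
    ((PP κ hκ).comp ((Mc volume g).comp (PP κ hκ)))) ∈ SS κ hκ :=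
  Submodule.le_topologicalClosure _ (Submodule.subset_span ⟨f, g, rfl⟩)

lemma isClosed_SS : IsClosed (SS κ hκ : Set (X0 →L[ℂ] X0)) :=
  Submodule.isClosed_topologicalClosure _

/-- `T ↦ P T P` as a bounded operator -/
def cmp : (X0 →L[ℂ] X0) →L[ℂ] (X0 →L[ℂ] X0) :=
  (ContinuousLinearMap.compL ℂ X0 X0 X0 (PP κ hκ)).comp
    ((ContinuousLinearMap.compL ℂ X0 X0 X0).flip (PP κ hκ))

lemma cmp_apply (T : X0 →L[ℂ] X0) : cmp κ hκ T = (PP κ hκ).comp (T.comp (PP κ hκ)) := rfl

/-- `h ↦ Θ(h c)` as a bounded operator on `L¹` -/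
def ThL (c : Y) : (ℂ →₁[volume] ℂ) →L[ℂ] (X0 →L[ℂ] X0) :=
  LinearMap.mkContinuous
    { toFun := fun h => Th (fun y => h y • c) (int_smul_one (L1.integrable_coeFn h) c)
      map_add' := fun h g => by
        rw [← Th_add]
        refine Th_congr _ _ ?_
        filter_upwards [Lp.coeFn_add h g] with y hy
        rw [hy, Pi.add_apply, add_smul]
      map_smul' := fun a h => by
        rw [RingHom.id_apply, ← Th_smul]
        refine Th_congr _ _ ?_
        filter_upwards [Lp.coeFn_smul a h] with y hy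
        rw [hy, Pi.smul_apply, smul_assoc] }
    ‖c‖ (fun h => by
      refine (norm_Th_le (int_smul_one (L1.integrable_coeFn h) c)).trans ?_
      simp_rw [norm_smul]
      rw [integral_mul_const, mul_comm, L1.norm_eq_integral_norm])

lemma ThL_toL1 (c : Y) {h : ℂ → ℂ} (hh : Integrable h volume) :
    ThL c (hh.toL1 h) = Th (fun y => h y • c) (int_smul_one hh c) := by
  refine Th_congr (int_smul_one (L1.integrable_coeFn _) c) (int_smul_one hh c) ?_
  filter_upwards [hh.coeFn_toL1] with y hy
  rw [hy]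

lemma step1 (h0 : ∀ᵐ z, κ z ≠ 0) (c : Y) {h : ℂ → ℂ} (hh : Integrable h volume) :
    cmp κ hκ (Th (fun y => h y • c) (int_smul_one hh c)) ∈ SS κ hκ := by
  set L : (ℂ →₁[volume] ℂ) →L[ℂ] (X0 →L[ℂ] X0) := (cmp κ hκ).comp (ThL c) with hL
  have key := density κ hκ h0 ((SS κ hκ).comap (L : (ℂ →₁[volume] ℂ) →ₗ[ℂ] (X0 →L[ℂ] X0)))
    ((isClosed_SS κ hκ).preimage L.continuous) (fun w => ?_) h hh
  · rw [Submodule.mem_comap] at key
    change cmp κ hκ (ThL c (hh.toL1 h)) ∈ SS κ hκ at key
    rwa [ThL_toL1] at key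
  · rw [Submodule.mem_comap]
    change cmp κ hκ (ThL c ((integrable_mul_ph hκ w).toL1 _)) ∈ SS κ hκ
    rw [ThL_toL1, cmp_apply]
    have h1 : Th (fun y => (κ y * ph 1 w y) • c) (int_smul_one (integrable_mul_ph hκ w) c) =
        (Mc volume (c * ph 1 w)).comp ((PP κ hκ).comp (Mc volume (ph (-1) w))) := by
      have h2 : Integrable fun y => ph 1 w y • (κ y • (1 : Y)) := by
        have := int_smul_one (integrable_mul_ph hκ w) 1
        refine this.congr (ae_of_all _ fun y => ?_)
        simp only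
        rw [smul_smul, mul_comm]
      have h3 := ph_Th w (int_smul_one hκ 1) h2
      have h4 := Mc_Th c h2 (h2.const_mul c)
      have h5 : Th (fun y => (κ y * ph 1 w y) • c) (int_smul_one (integrable_mul_ph hκ w) c) =
          Th (fun y => c * (ph 1 w y • κ y • (1 : Y))) (h2.const_mul c) := by
        refine Th_congr _ _ (ae_of_all _ fun y => ?_)
        simp only
        rw [smul_smul, mul_comm (ph 1 w y), mul_smul_comm, mul_one]
      refine h5.trans (h4.symm.trans ?_)
      refine (congrArg (fun T : X0 →L[ℂ] X0 => (Mc volume c).comp T) h3.symm).trans ?_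
      ext1 u
      have h6 : ((Mc volume c).comp ((Mc volume (ph 1 w)).comp
          ((Th (fun y => κ y • (1 : Y)) (int_smul_one hκ 1)).comp (Mc volume (ph (-1) w))))) u =
          Mc volume c (Mc volume (ph 1 w) (PP κ hκ (Mc volume (ph (-1) w) u))) := rfl
      refine h6.trans ?_
      rw [← Mc_mul]
      rfl
    rw [h1, ContinuousLinearMap.comp_assoc, ContinuousLinearMap.comp_assoc]
    exact mem_SS κ hκ (c * ph 1 w) (ph (-1) w)

/-- `P Θ(F) P` belongs to the closed span of the products of two Toeplitz operators, for every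
integrable `F` -/
theorem step1' (h0 : ∀ᵐ z, κ z ≠ 0) {F : ℂ → Y} (hF : Integrable F) :
    cmp κ hκ (Th F hF) ∈ SS κ hκ := by
  refine Integrable.induction (μ := (volume : Measure ℂ))
    (P := fun F : ℂ → Y => ∀ hF : Integrable F volume, cmp κ hκ (Th F hF) ∈ SS κ hκ)
    ?_ ?_ ?_ ?_ hF hF
  · intro c s hs hsf hF
    have h1 : Integrable (s.indicator fun _ => (1 : ℂ)) volume :=
      (integrable_indicator_iff hs).2 (integrableOn_const hsf.ne)
    have h2 := step1 κ hκ h0 c h1
    have h3 : Th (s.indicator fun _ => c) hF =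
        Th (fun y => (s.indicator (fun _ => (1 : ℂ)) y) • c) (int_smul_one h1 c) := by
      refine Th_congr _ _ (ae_of_all _ fun y => ?_)
      by_cases hy : y ∈ s
      · simp [hy]
      · simp [hy]
    rw [h3]
    exact h2
  · intro f g _ hf hg h1 h2 hF
    have h3 : Th (f + g) hF = Th f hf + Th g hg := by
      rw [← Th_add hf hg]; rfl
    rw [h3, map_add]
    exact Submodule.add_mem _ (h1 hf) (h2 hg)
  · have hc : Continuous fun f : ℂ →₁[volume] Y =>
        cmp κ hκ (Th f (L1.integrable_coeFn f)) := by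
      refine (cmp κ hκ).continuous.comp ?_
      refine (LipschitzWith.of_dist_le_mul (K := 1) fun f g => ?_).continuous
      rw [NNReal.coe_one, one_mul, dist_eq_norm, dist_eq_norm,
        ← Th_sub (L1.integrable_coeFn f) (L1.integrable_coeFn g)]
      refine (norm_Th_le _).trans (le_of_eq ?_)
      rw [L1.norm_eq_integral_norm]
      refine integral_congr_ae ?_
      filter_upwards [Lp.coeFn_sub f g] with y hy
      rw [hy, Pi.sub_apply]
    have h4 : {f : ℂ →₁[volume] Y | ∀ hF : Integrable (fun y => f y) volume,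
        cmp κ hκ (Th (fun y => f y) hF) ∈ SS κ hκ} =
        (fun f : ℂ →₁[volume] Y => cmp κ hκ (Th f (L1.integrable_coeFn f))) ⁻¹'
          (SS κ hκ : Set (X0 →L[ℂ] X0)) := by
      ext f
      exact ⟨fun h => h _, fun h _ => h⟩
    rw [h4]
    exact (isClosed_SS κ hκ).preimage hc
  · intro f g hfg hf h1 hg
    rw [← Th_congr hf hg hfg]
    exact h1 hf

end Proj

end

end Pool.Agent.W2helper14.TF
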