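import Pool.Agent.W2helper14.TF.D

/-!
# Band operators: `P B P` is in the closed span of the products of two Toeplitz operators
-/

namespace Pool.Agent.W2helper14.TF

open MeasureTheory Complex Filter Topology
open scoped ENNReal ComplexConjugate BoundedContinuousFunction

noncomputable section

lemma integrable_exp_neg (c : ℝ) (hc : 0 < c) : Integrable fun z : ℂ => Real.exp (-c * ‖z‖) := by
  have h1 : Integrable (fun z : ℂ => (1 + ‖z‖) ^ (-(3 : ℝ))) volume := by
    refine integrable_one_add_norm ?_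
    rw [Complex.finrank_real_complex]; norm_num
  set M : ℝ := max 1 (3 / c) with hM
  have hM1 : 1 ≤ M := le_max_left _ _
  have hM2 : 3 / c ≤ M := le_max_right _ _
  refine Integrable.mono' (h1.const_mul (M ^ 3)) (by fun_prop) (ae_of_all _ fun z => ?_)
  rw [Real.norm_of_nonneg (Real.exp_pos _).le]
  set t := ‖z‖
  have ht : 0 ≤ t := norm_nonneg z
  have h2 : 1 + t ≤ M * (1 + c * t / 3) := by
    have h3 : t ≤ M * (c * t / 3) := by
      have : t = 3 / c * (c * t / 3) := by field_simp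
      calc t = 3 / c * (c * t / 3) := this
        _ ≤ M * (c * t / 3) := mul_le_mul_of_nonneg_right hM2 (by positivity)
    nlinarith
  have h4 : 1 + c * t / 3 ≤ Real.exp (c * t / 3) := by
    have := Real.add_one_le_exp (c * t / 3); linarith
  have h5 : (1 + t) ^ 3 ≤ M ^ 3 * Real.exp (c * t) := by
    have h6 : (1 + t) ^ 3 ≤ (M * Real.exp (c * t / 3)) ^ 3 := by
      refine pow_le_pow_left₀ (by positivity) (h2.trans ?_) 3
      exact mul_le_mul_of_nonneg_left h4 (by positivity)
    have h7 : (M * Real.exp (c * t / 3)) ^ 3 = M ^ 3 * Real.exp (c * t) := by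
      rw [mul_pow, ← Real.exp_nat_mul]
      congr 2
      push_cast; ring
    rwa [h7] at h6
  have h8 : (1 + t) ^ (-(3 : ℝ)) = ((1 + t) ^ 3)⁻¹ := by
    rw [Real.rpow_neg (by positivity)]
    norm_cast
  rw [h8, neg_mul, Real.exp_neg, ← div_eq_mul_inv, le_div_iff₀ (by positivity)]
  rw [inv_mul_le_iff₀ (Real.exp_pos _)]
  linarith

/-- band operators of width `ω` in terms of inner products -/
def BandW (ω : ℝ) (B : X0 →L[ℂ] X0) : Prop :=
  ∀ K K' : Set ℂ, MeasurableSet K → MeasurableSet K' → (∀ x ∈ K, ∀ x' ∈ K', ω < dist x x') →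
    ∀ u v : X0, (∀ᵐ z, z ∉ K → u z = 0) → (∀ᵐ z, z ∉ K' → v z = 0) → inner ℂ v (B u) = 0

/-- the hypotheses on the kernel -/
structure Ker (κ : ℂ → ℂ) : Prop where
  int : Integrable κ volume
  mem2 : MemLp κ 2 volume
  ne0 : ∀ᵐ z, κ z ≠ 0
  sym : ∀ z, conj (κ (-z)) = κ z
  dec : ∃ A, ∀ z, ‖κ z‖ ≤ A * Real.exp (-‖z‖)

lemma W_W (z a : ℂ) (u : X0) : W z (W a u) = conj (ph 1 a z) • W (z + a) u := by
  apply Lp.ext
  have h0 : ∀ᵐ x : ℂ, (W a u) (x - z) = ph 1 a (x - z) * u (x - z - a) :=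
    (measurePreserving_sub_right volume z).quasiMeasurePreserving.tendsto_ae (tw_coe 1 a u)
  filter_upwards [tw_coe 1 z (W a u), h0, Lp.coeFn_smul (conj (ph 1 a z)) (W (z + a) u),
    tw_coe 1 (z + a) u] with x h1 h2 h3 h4
  rw [h1, h2, h3, Pi.smul_apply, h4, smul_eq_mul, sub_sub, ← mul_assoc, ← mul_assoc]
  congr 1
  rw [conj_ph]
  simp only [ph_apply]
  rw [← Complex.exp_add, ← Complex.exp_add]
  congr 1
  rw [← add_mul, ← add_mul, ← Complex.ofReal_add, ← Complex.ofReal_add]
  congr 2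
  simp only [map_add, map_neg, mul_im, sub_re, sub_im, add_re, add_im, neg_re, neg_im, conj_re,
    conj_im]
  ring

lemma W_W' (z y : ℂ) (u : X0) : W z (W (-y) u) = ph 1 y z • W (z - y) u := by
  rw [W_W, conj_ph, neg_neg, sub_eq_add_neg]

variable {κ : ℂ → ℂ} (hK : Ker κ)

/-- the kernel as an element of `L²` -/
def kL : X0 := hK.mem2.toLp κ

/-- the symbol of `P B P` -/
def Gam (B : X0 →L[ℂ] X0) (y : ℂ) : Y :=
  BoundedContinuousFunction.ofNormedAddCommGroup
    (fun z => inner ℂ (W z (kL hK)) (B (W z (W (-y) (kL hK)))))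
    (by
      refine Continuous.inner (continuous_tw 1 _) ?_
      exact B.continuous.comp (continuous_tw 1 _))
    (‖kL hK‖ * (‖B‖ * ‖kL hK‖))
    (fun z => by
      refine (norm_inner_le_norm _ _).trans ?_
      refine mul_le_mul (norm_tw_le _ _ _) ?_ (norm_nonneg _) (norm_nonneg _)
      refine (B.le_opNorm _).trans (mul_le_mul_of_nonneg_left ?_ (norm_nonneg _))
      exact (norm_tw_le _ _ _).trans (norm_tw_le _ _ _))

lemma Gam_apply (B : X0 →L[ℂ] X0) (y z : ℂ) :
    Gam hK B y z = inner ℂ (W z (kL hK)) (B (W z (W (-y) (kL hK)))) := rfl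

lemma continuous_Gam (B : X0 →L[ℂ] X0) : Continuous (Gam hK B) := by
  have hc : Continuous fun y => W (-y) (kL hK) := (continuous_tw 1 (kL hK)).comp continuous_neg
  rw [continuous_iff_continuousAt]
  intro y0
  rw [ContinuousAt, tendsto_iff_norm_sub_tendsto_zero]
  have h1 : Tendsto (fun y => ‖kL hK‖ * (‖B‖ * ‖W (-y) (kL hK) - W (-y0) (kL hK)‖)) (𝓝 y0)
      (𝓝 0) := by
    have h2 := tendsto_iff_norm_sub_tendsto_zero.1 (hc.tendsto y0)
    have := (h2.const_mul ‖B‖).const_mul ‖kL hK‖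
    simpa using this
  refine squeeze_zero (fun _ => norm_nonneg _) (fun y => ?_) h1
  rw [BoundedContinuousFunction.norm_le (by positivity)]
  intro z
  rw [BoundedContinuousFunction.sub_apply, Gam_apply, Gam_apply, ← inner_sub_right, ← map_sub,
    ← map_sub]
  refine (norm_inner_le_norm _ _).trans ?_
  refine mul_le_mul (norm_tw_le _ _ _) ?_ (norm_nonneg _) (norm_nonneg _)
  refine (B.le_opNorm _).trans (mul_le_mul_of_nonneg_left ?_ (norm_nonneg _))
  exact norm_tw_le _ _ _

lemma supp_tw (s : ℝ) (a : ℂ) (r : ℝ) (u : X0)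
    (hu : ∀ᵐ z, z ∉ Metric.closedBall (0 : ℂ) r → u z = 0) :
    ∀ᵐ z, z ∉ Metric.closedBall a r → tw s a u z = 0 := by
  have h0 : ∀ᵐ x : ℂ, x - a ∉ Metric.closedBall (0 : ℂ) r → u (x - a) = 0 :=
    (measurePreserving_sub_right volume a).quasiMeasurePreserving.tendsto_ae hu
  filter_upwards [h0, tw_coe s a u] with z h1 h2 hz
  rw [h2, h1, mul_zero]
  intro h
  apply hz
  rw [mem_closedBall_zero_iff] at h
  rwa [Metric.mem_closedBall, dist_eq_norm]

/-- the decay of the symbol of `P B P` for a band operator -/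
lemma Gam_bound {ω : ℝ} {B : X0 →L[ℂ] X0} (hB : BandW ω B) :
    ∃ C, ∀ y, ‖Gam hK B y‖ ≤ C * Real.exp (-(1 / 4) * ‖y‖) := by
  obtain ⟨A, hA⟩ := hK.dec
  have hA0 : 0 ≤ A := by
    have := (norm_nonneg _).trans (hA 0)
    rw [norm_zero, neg_zero, Real.exp_zero, mul_one] at this
    exact this
  set I1 : ℝ := ∫ x : ℂ, Real.exp (-1 * ‖x‖) with hI1
  have hI1n : 0 ≤ I1 := integral_nonneg fun _ => (Real.exp_pos _).le
  -- the tail
  have tail : ∀ r : ℝ, ∃ u1 u2 : X0, kL hK = u1 + u2 ∧
      (∀ᵐ z, z ∉ Metric.closedBall (0 : ℂ) r → u1 z = 0) ∧ ‖u1‖ ≤ ‖kL hK‖ ∧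
      ‖u2‖ ≤ A * Real.sqrt I1 * Real.exp (-r / 2) := by
    intro r
    have m1 : MemLp ((Metric.closedBall (0 : ℂ) r).indicator κ) 2 volume :=
      hK.mem2.indicator measurableSet_closedBall
    have m2 : MemLp ((Metric.closedBall (0 : ℂ) r)ᶜ.indicator κ) 2 volume :=
      hK.mem2.indicator measurableSet_closedBall.compl
    refine ⟨m1.toLp _, m2.toLp _, ?_, ?_, ?_, ?_⟩
    · rw [kL, ← MemLp.toLp_add]
      refine MemLp.toLp_congr _ _ (ae_of_all _ fun z => ?_)
      rw [Set.indicator_self_add_compl]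
    · filter_upwards [MemLp.coeFn_toLp m1] with z h1 h2
      rw [h1, Set.indicator_of_notMem h2]
    · refine Lp.norm_le_norm_of_ae_le ?_
      filter_upwards [MemLp.coeFn_toLp m1, MemLp.coeFn_toLp hK.mem2] with z h1 h2
      rw [h1, kL, h2]
      exact norm_indicator_le_norm_self _ _
    · have h3 : ‖m2.toLp _‖ ^ 2 ≤ (A * Real.sqrt I1 * Real.exp (-r / 2)) ^ 2 := by
        rw [norm_sq_eq]
        have h4 : (A * Real.sqrt I1 * Real.exp (-r / 2)) ^ 2 =
            ∫ x : ℂ, (A ^ 2 * Real.exp (-r)) * Real.exp (-1 * ‖x‖) := by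
          rw [integral_const_mul, mul_pow, mul_pow, Real.sq_sqrt hI1n, ← Real.exp_nat_mul, ← hI1]
          have : ((2 : ℕ) : ℝ) * (-r / 2) = -r := by push_cast; ring
          rw [this]; ring
        rw [h4]
        refine integral_mono_ae (integrable_sq _)
          ((integrable_exp_neg 1 one_pos).const_mul _) ?_
        filter_upwards [MemLp.coeFn_toLp m2] with z h1
        rw [h1]
        by_cases hz : z ∈ (Metric.closedBall (0 : ℂ) r)ᶜ
        · rw [Set.indicator_of_mem hz]
          have hz' : r ≤ ‖z‖ := by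
            rw [Set.mem_compl_iff, mem_closedBall_zero_iff, not_le] at hz
            exact hz.le
          calc ‖κ z‖ ^ 2 ≤ (A * Real.exp (-‖z‖)) ^ 2 :=
                pow_le_pow_left₀ (norm_nonneg _) (hA z) 2
            _ = A ^ 2 * Real.exp (-‖z‖) * Real.exp (-1 * ‖z‖) := by
                rw [neg_one_mul]; ring
            _ ≤ _ := by gcongr
        · rw [Set.indicator_of_notMem hz, norm_zero, zero_pow two_ne_zero]
          positivity
      exact (sq_le_sq₀ (norm_nonneg _) (by positivity)).1 h3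
  refine ⟨‖kL hK‖ * ‖B‖ * (A * Real.sqrt I1) * 2 * Real.exp ((ω + 1) / 4), fun y => ?_⟩
  rw [BoundedContinuousFunction.norm_le (by positivity)]
  intro z
  set r : ℝ := (‖y‖ - ω - 1) / 2 with hr
  obtain ⟨u1, u2, hu, hs, hn1, hn2⟩ := tail r
  have hsplit : Gam hK B y z = inner ℂ (W z u1) (B (W z (W (-y) u1))) +
      inner ℂ (W z u2) (B (W z (W (-y) u1))) + inner ℂ (W z (kL hK)) (B (W z (W (-y) u2))) := by
    rw [Gam_apply, ← inner_add_left, ← map_add, ← hu, ← inner_add_right, ← map_add, ← map_add,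
      ← map_add, ← hu]
  have hz0 : inner ℂ (W z u1) (B (W z (W (-y) u1))) = 0 := by
    rw [W_W', map_smul, inner_smul_right]
    have := hB (Metric.closedBall (z - y) r) (Metric.closedBall z r) measurableSet_closedBall
      measurableSet_closedBall (fun x hx x' hx' => ?_) (W (z - y) u1) (W z u1)
      (supp_tw 1 (z - y) r u1 hs) (supp_tw 1 z r u1 hs)
    · rw [this, mul_zero]
    · rw [Metric.mem_closedBall] at hx hx'
      have h1 : dist (z - y) z ≤ dist (z - y) x + dist x x' + dist x' z := dist_triangle4 _ _ _ _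
      have h2 : dist (z - y) z = ‖y‖ := by rw [dist_eq_norm]; simp
      rw [dist_comm (z - y) x] at h1
      linarith
  rw [hsplit, hz0, zero_add]
  have hb : ∀ a b : X0, ‖(inner ℂ (W z a) (B (W z (W (-y) b))) : ℂ)‖ ≤ ‖a‖ * (‖B‖ * ‖b‖) := by
    intro a b
    refine (norm_inner_le_norm _ _).trans ?_
    refine mul_le_mul (norm_tw_le _ _ _) ?_ (norm_nonneg _) (norm_nonneg _)
    refine (B.le_opNorm _).trans (mul_le_mul_of_nonneg_left ?_ (norm_nonneg _))
    exact (norm_tw_le _ _ _).trans (norm_tw_le _ _ _)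
  refine (norm_add_le _ _).trans ((add_le_add (hb u2 u1) (hb (kL hK) u2)).trans ?_)
  have h5 : ‖u2‖ * (‖B‖ * ‖u1‖) + ‖kL hK‖ * (‖B‖ * ‖u2‖) ≤
      ‖kL hK‖ * ‖B‖ * 2 * (A * Real.sqrt I1 * Real.exp (-r / 2)) := by
    have e1 : ‖u2‖ * (‖B‖ * ‖u1‖) ≤ (A * Real.sqrt I1 * Real.exp (-r / 2)) * (‖B‖ * ‖kL hK‖) := by
      gcongr
    have e2 : ‖kL hK‖ * (‖B‖ * ‖u2‖) ≤ ‖kL hK‖ * (‖B‖ * (A * Real.sqrt I1 * Real.exp (-r / 2))) := by
      gcongr
    linarith
  refine h5.trans (le_of_eq ?_)
  have h6 : Real.exp (-r / 2) = Real.exp ((ω + 1) / 4) * Real.exp (-(1 / 4) * ‖y‖) := by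
    rw [← Real.exp_add]
    congr 1
    rw [hr]; ring
  rw [h6]; ring

lemma integrable_Gam {ω : ℝ} {B : X0 →L[ℂ] X0} (hB : BandW ω B) : Integrable (Gam hK B) := by
  obtain ⟨C, hC⟩ := Gam_bound hK hB
  exact Integrable.mono' ((integrable_exp_neg (1 / 4) (by norm_num)).const_mul C)
    (continuous_Gam hK B).aestronglyMeasurable (ae_of_all _ hC)

/-- `P B P = Θ(Γ)` -/
lemma PBP_eq {ω : ℝ} {B : X0 →L[ℂ] X0} (hB : BandW ω B)
    (hP : ∀ u v : X0, inner ℂ (PP κ hK.int v) u = inner ℂ v (PP κ hK.int u)) :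
    cmp κ hK.int B = Th (Gam hK B) (integrable_Gam hK hB) := by
  ext1 u
  refine ext_inner_left ℂ fun v => ?_
  have hm : AEStronglyMeasurable (fun p : ℂ × ℂ => Gam hK B p.1 p.2) (volume.prod volume) := by
    refine Continuous.aestronglyMeasurable ?_
    exact Continuous.eval ((continuous_Gam hK B).comp continuous_fst) continuous_snd
  rw [inner_Th' _ hm, cmp_apply, ContinuousLinearMap.comp_apply, inner_PP hK.int hK.mem2 hK.sym]
  refine integral_congr_ae (ae_of_all _ fun z => ?_)
  simp only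
  congr 1
  change inner ℂ (W z (kL hK)) (B (PP κ hK.int u)) = _
  rw [← ContinuousLinearMap.adjoint_inner_left, ← hP, ← inner_conj_symm,
    inner_PP hK.int hK.mem2 hK.sym, ← integral_conj]
  refine integral_congr_ae (ae_of_all _ fun x => ?_)
  simp only
  rw [map_mul, Complex.conj_conj, inner_conj_symm, ContinuousLinearMap.adjoint_inner_left,
    Gam_apply, W_W', map_smul, inner_smul_right, sub_sub_cancel]
  have h1 : ph 1 (z - x) z * ph (-1) (z - x) z = 1 := by
    rw [ph_apply, ph_apply, ← Complex.exp_add, ← add_mul, ← Complex.ofReal_add]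
    have : (1 * (z * conj (z - x)).im + -1 * (z * conj (z - x)).im : ℝ) = 0 := by ring
    rw [this]; simp
  change u x * inner ℂ (W z (kL hK)) (B (W x (kL hK))) = _
  linear_combination (-(u x * inner ℂ (W z (kL hK)) (B (W x (kL hK))))) * h1

/-- **Main step.** For a band operator `B` the operator `P B P` is in the closed linear span of the
products of two Toeplitz operators. -/
theorem flat_band {ω : ℝ} {B : X0 →L[ℂ] X0} (hB : BandW ω B)
    (hP : ∀ u v : X0, inner ℂ (PP κ hK.int v) u = inner ℂ v (PP κ hK.int u))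
    (hPP : ∀ u, PP κ hK.int (PP κ hK.int u) = PP κ hK.int u) :
    cmp κ hK.int B ∈ SS κ hK.int := by
  have h1 : cmp κ hK.int (cmp κ hK.int B) = cmp κ hK.int B := by
    ext1 u
    simp only [cmp_apply, ContinuousLinearMap.comp_apply, hPP]
  rw [← h1, PBP_eq hK hB hP]
  exact step1' κ hK.int hK.ne0 _

/-- a limit `T = P T P` of band operators is in the closed linear span of the products of two
Toeplitz operators -/
theorem flat_main
    (hP : ∀ u v : X0, inner ℂ (PP κ hK.int v) u = inner ℂ v (PP κ hK.int u))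
    (hPP : ∀ u, PP κ hK.int (PP κ hK.int u) = PP κ hK.int u)
    {T : X0 →L[ℂ] X0} (hT : T ∈ closure {B | ∃ ω, BandW ω B}) (hTP : cmp κ hK.int T = T) :
    T ∈ SS κ hK.int := by
  have h1 : cmp κ hK.int T ∈ closure (cmp κ hK.int '' {B | ∃ ω, BandW ω B}) :=
    image_closure_subset_closure_image (cmp κ hK.int).continuous ⟨T, hT, rfl⟩
  rw [hTP] at h1
  refine (isClosed_SS κ hK.int).closure_subset_iff.2 ?_ h1
  rintro _ ⟨B, ⟨ω, hB⟩, rfl⟩
  exact flat_band hK hB hP hPP

/-- `P` is a limit of band operators -/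
theorem PP_mem : PP κ hK.int ∈ closure {B | ∃ ω, BandW ω B} := by
  have hR : ∀ R : ℕ, Integrable (fun y => (Metric.closedBall (0 : ℂ) R).indicator κ y • (1 : Y)) :=
    fun R => int_smul_one (hK.int.indicator measurableSet_closedBall) 1
  refine mem_closure_of_tendsto (b := atTop) (f := fun R : ℕ => Th _ (hR R)) ?_
    (Eventually.of_forall fun R => ⟨R, ?_⟩)
  · rw [tendsto_iff_norm_sub_tendsto_zero]
    have h1 : ∀ R : ℕ, ‖Th _ (hR R) - PP κ hK.int‖ ≤
        ∫ y, ‖(Metric.closedBall (0 : ℂ) R).indicator κ y - κ y‖ := by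
      intro R
      rw [PP, ← Th_sub (hR R) (int_smul_one hK.int 1)]
      refine (norm_Th_le _).trans ?_
      refine le_of_eq (integral_congr_ae (ae_of_all _ fun y => ?_))
      simp only
      rw [← sub_smul, norm_smul, norm_one, mul_one]
    refine squeeze_zero (fun _ => norm_nonneg _) h1 ?_
    have h2 : Tendsto (fun R : ℕ => ∫ y, ‖(Metric.closedBall (0 : ℂ) R).indicator κ y - κ y‖) atTop
        (𝓝 (∫ _ : ℂ, (0 : ℝ))) := by
      refine tendsto_integral_of_dominated_convergence (fun z => ‖κ z‖)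
        (fun R => ((hK.int.indicator measurableSet_closedBall).1.sub hK.int.1).norm)
        hK.int.norm (fun R => ae_of_all _ fun z => ?_) (ae_of_all _ fun z => ?_)
      · rw [norm_norm]
        by_cases hz2 : z ∈ Metric.closedBall (0 : ℂ) R
        · rw [Set.indicator_of_mem hz2, sub_self, norm_zero]; positivity
        · rw [Set.indicator_of_notMem hz2, zero_sub, norm_neg]
      · refine tendsto_const_nhds.congr' ?_
        obtain ⟨N0, hN0⟩ := exists_nat_ge ‖z‖
        filter_upwards [eventually_ge_atTop N0] with N hN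
        have hz2 : z ∈ Metric.closedBall (0 : ℂ) N := by
          rw [mem_closedBall_zero_iff]
          exact hN0.trans (by exact_mod_cast hN)
        rw [Set.indicator_of_mem hz2, sub_self, norm_zero]
    rwa [integral_zero] at h2
  · intro K K' hmK hmK' hd u v hu hv
    rw [inner_Th]
    refine integral_eq_zero_of_ae (ae_of_all _ fun y => ?_)
    simp only [Pi.zero_apply]
    by_cases hy : y ∈ Metric.closedBall (0 : ℂ) R
    · rw [inner_Mc_V]
      refine integral_eq_zero_of_ae ?_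
      have h0 : ∀ᵐ x : ℂ, x - y ∉ K → u (x - y) = 0 :=
        (measurePreserving_sub_right volume y).quasiMeasurePreserving.tendsto_ae hu
      filter_upwards [h0, hv] with z h1 h2
      simp only [Pi.zero_apply]
      by_cases hz : z ∈ K'
      · have h3 : z - y ∉ K := by
          intro h4
          have h5 := hd _ h4 _ hz
          rw [dist_eq_norm] at h5
          have h6 : z - y - z = -y := by ring
          rw [h6, norm_neg] at h5
          rw [mem_closedBall_zero_iff] at hy
          linarith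
        rw [h1 h3]; ring
      · rw [h2 hz]; simp
    · rw [Set.indicator_of_notMem hy, zero_smul, map_zero]
      simp

end

end Pool.Agent.W2helper14.TF
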