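import Pool.Agent.W2helper14.TF.E

/-!
# `P` is symmetric and an integral operator
-/

namespace Pool.Agent.W2helper14.TF

open MeasureTheory Complex Filter Topology
open scoped ENNReal ComplexConjugate BoundedContinuousFunction

noncomputable section

lemma tw_adj (s : ℝ) (a : ℂ) (u v : X0) : inner ℂ (tw s a v) u = inner ℂ v (tw s (-a) u) := by
  rw [inner_eq, inner_eq]
  have h1 : ∫ z, conj ((tw s a v) z) * u z = ∫ z, conj (ph s a z * v (z - a)) * u z := by
    refine integral_congr_ae ?_
    filter_upwards [tw_coe s a v] with z hz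
    rw [hz]
  have h2 : ∫ z, conj (v z) * (tw s (-a) u) z = ∫ z, conj (v z) * (ph s (-a) z * u (z + a)) := by
    refine integral_congr_ae ?_
    filter_upwards [tw_coe s (-a) u] with z hz
    rw [hz, sub_neg_eq_add]
  rw [h1, h2, ← integral_add_right_eq_self (fun z => conj (ph s a z * v (z - a)) * u z) a]
  refine integral_congr_ae (ae_of_all _ fun z => ?_)
  simp only [add_sub_cancel_right, map_mul]
  have h3 : conj (ph s a (z + a)) = ph s (-a) z := by
    rw [ph_apply, ph_apply, ← Complex.exp_conj, map_mul, conj_I, Complex.conj_ofReal]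
    congr 1
    have h4 : (s * ((z + a) * conj a).im : ℝ) = s * (z * conj a).im := by
      congr 1
      simp only [mul_im, add_re, add_im, conj_re, conj_im]
      ring
    have h5 : (s * (z * conj (-a)).im : ℝ) = -(s * (z * conj a).im) := by
      rw [map_neg, mul_neg, Complex.neg_im]; ring
    rw [h4, h5]
    push_cast
    ring
  rw [h3]; ring

section

variable {κ : ℂ → ℂ} (hκ : Integrable κ volume)

lemma inner_PP_V (u v : X0) :
    inner ℂ v (PP κ hκ u) = ∫ y, κ y * inner ℂ v (V y u) := by
  rw [PP, inner_Th]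
  refine integral_congr_ae (ae_of_all _ fun y => ?_)
  simp only
  rw [map_smul, smul_apply, Mc_one, inner_smul_right]

lemma PP_symm (hsym : ∀ z, conj (κ (-z)) = κ z) (u v : X0) :
    inner ℂ (PP κ hκ v) u = inner ℂ v (PP κ hκ u) := by
  rw [← inner_conj_symm, inner_PP_V, inner_PP_V, ← integral_conj,
    ← integral_neg_eq_self]
  refine integral_congr_ae (ae_of_all _ fun y => ?_)
  simp only
  rw [map_mul, hsym, inner_conj_symm, tw_adj, neg_neg]

lemma inner_PP_W (hκ2 : MemLp κ 2 volume) (u : X0) :
    Continuous fun z => (inner ℂ (W z (hκ2.toLp κ)) u : ℂ) :=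
  (continuous_tw 1 _).inner continuous_const

/-- pointwise formula for `P` -/
lemma PP_ae (hκ2 : MemLp κ 2 volume) (hsym : ∀ z, conj (κ (-z)) = κ z) (u : X0) :
    PP κ hκ u =ᵐ[volume] fun z => inner ℂ (W z (hκ2.toLp κ)) u := by
  refine ae_eq_of_forall_setIntegral_eq_of_sigmaFinite (fun s hs hsf => ?_) (fun s hs hsf => ?_)
    (fun s hs hsf => ?_)
  · exact (L2.integrable_inner (𝕜 := ℂ) (indicatorConstLp 2 hs hsf.ne (1 : ℂ)) (PP κ hκ u)).mono_measure
      Measure.restrict_le_self |>.congr (by
        have := ae_restrict_of_ae (s := s) (indicatorConstLp_coeFn (p := 2) (hs := hs)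
          (hμs := hsf.ne) (c := (1 : ℂ)))
        filter_upwards [this, ae_restrict_mem hs] with z h1 h2
        rw [h1, Set.indicator_of_mem h2]
        simp)
  · refine Measure.integrableOn_of_bounded (M := ‖hκ2.toLp κ‖ * ‖u‖) hsf.ne
      (inner_PP_W hκ2 u).aestronglyMeasurable (ae_of_all _ fun z => ?_)
    refine (norm_inner_le_norm _ _).trans ?_
    exact mul_le_mul_of_nonneg_right (norm_tw_le _ _ _) (norm_nonneg _)
  · have h1 := inner_PP hκ hκ2 hsym u (indicatorConstLp 2 hs hsf.ne (1 : ℂ))
    rw [L2.inner_indicatorConstLp_one] at h1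
    rw [h1, ← integral_indicator hs]
    refine integral_congr_ae ?_
    filter_upwards [indicatorConstLp_coeFn (p := 2) (hs := hs) (hμs := hsf.ne) (c := (1 : ℂ))]
      with z hz
    rw [hz]
    by_cases hzs : z ∈ s
    · rw [Set.indicator_of_mem hzs, Set.indicator_of_mem hzs]; simp
    · rw [Set.indicator_of_notMem hzs, Set.indicator_of_notMem hzs]; simp

end

end

end Pool.Agent.W2helper14.TF
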