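import Pool.Agent.W2helper14.TF.F
import Pool.Agent.W2helper73.TP.Bdo
import Pool.Agent.W2helper69.TP.Vop

/-!
# Transfer to `L²(ℂ, gm)`
-/

namespace Pool.Agent.W2helper14.TF

open MeasureTheory Complex Filter Topology
open scoped ENNReal ComplexConjugate BoundedContinuousFunction

noncomputable section

open TP (gm H dens BDO IsBand Bdm)

/-- square root of the density of `gm` -/
def rho (z : ℂ) : ℝ := Real.exp (-‖z‖ ^ 2 / 2) / Real.sqrt Real.pi

lemma rho_pos (z : ℂ) : 0 < rho z := by unfold rho; positivity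

lemma rho_ne (z : ℂ) : (rho z : ℂ) ≠ 0 := by exact_mod_cast (rho_pos z).ne'

lemma rho_cont : Continuous rho := by unfold rho; fun_prop

lemma rho_sq (z : ℂ) : rho z ^ 2 = (dens z).toReal := by
  unfold rho TP.dens
  rw [ENNReal.toReal_ofReal (by positivity), div_pow, Real.sq_sqrt Real.pi_pos.le,
    ← Real.exp_nat_mul]
  congr 2
  push_cast; ring

lemma gm_integral_real (F : ℂ → ℝ) : ∫ z, F z ∂gm = ∫ z, rho z ^ 2 * F z := by
  rw [TP.gm_def, integral_withDensity_eq_integral_toReal_smul TP.dens_meas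
    (Filter.Eventually.of_forall fun z => ENNReal.ofReal_lt_top)]
  refine integral_congr_ae (ae_of_all _ fun z => ?_)
  simp only [smul_eq_mul, rho_sq]

lemma gm_integrable_iff (F : ℂ → ℝ) : Integrable F gm ↔ Integrable (fun z => rho z ^ 2 * F z) := by
  rw [TP.gm_def, integrable_withDensity_iff_integrable_smul' TP.dens_meas
    (Filter.Eventually.of_forall fun z => ENNReal.ofReal_lt_top)]
  refine integrable_congr (ae_of_all _ fun z => ?_)
  simp only [smul_eq_mul, rho_sq]

lemma memLp_flat {f : ℂ → ℂ} (hf : MemLp f 2 gm) :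
    MemLp (fun z => f z * (rho z : ℂ)) 2 volume := by
  have hm : AEStronglyMeasurable f volume := hf.1.mono_ac TP.vol_ac
  have hr : Continuous fun z => (rho z : ℂ) := Complex.continuous_ofReal.comp rho_cont
  have hm2 : AEStronglyMeasurable (fun z => f z * (rho z : ℂ)) volume :=
    hm.mul hr.aestronglyMeasurable
  rw [memLp_two_iff_integrable_sq_norm hm2]
  have h1 := (memLp_two_iff_integrable_sq_norm hf.1).1 hf
  rw [gm_integrable_iff] at h1
  refine h1.congr (ae_of_all _ fun z => ?_)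
  simp only
  rw [norm_mul, Complex.norm_real, mul_pow, Real.norm_eq_abs, sq_abs, mul_comm]

lemma memLp_gauss {g : ℂ → ℂ} (hg : MemLp g 2 volume) :
    MemLp (fun z => g z / (rho z : ℂ)) 2 gm := by
  have hr : Continuous fun z => (rho z : ℂ) := Complex.continuous_ofReal.comp rho_cont
  have hm : AEStronglyMeasurable (fun z => g z / (rho z : ℂ)) volume :=
    (hg.1.aemeasurable.div hr.aemeasurable).aestronglyMeasurable
  rw [memLp_two_iff_integrable_sq_norm (hm.mono_ac TP.gm_ac), gm_integrable_iff]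
  have h1 := (memLp_two_iff_integrable_sq_norm hg.1).1 hg
  refine h1.congr (ae_of_all _ fun z => ?_)
  simp only
  rw [norm_div, Complex.norm_real, Real.norm_eq_abs, abs_of_pos (rho_pos z), div_pow]
  have := (rho_pos z).ne'
  field_simp

/-- the unitary operator `f ↦ f rho` from `L²(gm)` onto `L²(ℂ)`, as a linear isometry -/
def Ui : H →ₗᵢ[ℂ] X0 where
  toFun f := (memLp_flat (Lp.memLp f)).toLp _
  map_add' f g := by
    rw [← MemLp.toLp_add]
    apply MemLp.toLp_congr
    filter_upwards [TP.vol_ac.ae_le (Lp.coeFn_add f g)] with z hz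
    simp only [Pi.add_apply] at hz ⊢
    rw [hz]; ring
  map_smul' c f := by
    rw [RingHom.id_apply, ← MemLp.toLp_const_smul]
    apply MemLp.toLp_congr
    filter_upwards [TP.vol_ac.ae_le (Lp.coeFn_smul c f)] with z hz
    simp only [Pi.smul_apply, smul_eq_mul] at hz ⊢
    rw [hz]; ring
  norm_map' f := by
    have h : ‖(memLp_flat (Lp.memLp f)).toLp _‖ ^ 2 = ‖f‖ ^ 2 := by
      rw [norm_sq_eq, norm_sq_eq, gm_integral_real]
      refine integral_congr_ae ?_
      filter_upwards [MemLp.coeFn_toLp (memLp_flat (Lp.memLp f))] with z hz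
      rw [hz, norm_mul, Complex.norm_real, mul_pow, Real.norm_eq_abs, sq_abs, mul_comm]
    exact (sq_eq_sq₀ (norm_nonneg _) (norm_nonneg _)).1 h

lemma Ui_coe (f : H) : Ui f =ᵐ[volume] fun z => f z * (rho z : ℂ) :=
  MemLp.coeFn_toLp (memLp_flat (Lp.memLp f))

lemma Ui_surj : Function.Surjective Ui := by
  intro g
  refine ⟨(memLp_gauss (Lp.memLp g)).toLp _, ?_⟩
  apply Lp.ext
  filter_upwards [Ui_coe ((memLp_gauss (Lp.memLp g)).toLp _),
    TP.vol_ac.ae_le (MemLp.coeFn_toLp (memLp_gauss (Lp.memLp g)))] with z h1 h2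
  rw [h1, h2]
  have := rho_ne z
  field_simp

/-- the unitary operator `f ↦ f rho` from `L²(gm)` onto `L²(ℂ)` -/
def U : H ≃ₗᵢ[ℂ] X0 := LinearIsometryEquiv.ofSurjective Ui Ui_surj

lemma U_coe (f : H) : U f =ᵐ[volume] fun z => f z * (rho z : ℂ) := Ui_coe f

lemma Us_coe (g : X0) : U.symm g =ᵐ[gm] fun z => g z / (rho z : ℂ) := by
  have h1 := U_coe (U.symm g)
  rw [LinearIsometryEquiv.apply_symm_apply] at h1
  refine TP.gm_ac.ae_le ?_
  filter_upwards [h1] with z hz
  rw [hz]
  have := rho_ne z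
  field_simp

/-- conjugation with `U` -/
def conjU : (X0 →L[ℂ] X0) →L[ℂ] (H →L[ℂ] H) :=
  (ContinuousLinearMap.compL ℂ H X0 H (U.symm : X0 →L[ℂ] H)).comp
    ((ContinuousLinearMap.compL ℂ H X0 X0).flip (U : H →L[ℂ] X0))

lemma conjU_apply (T : X0 →L[ℂ] X0) (f : H) : conjU T f = U.symm (T (U f)) := rfl

/-- conjugation with the inverse of `U` -/
def conjUs : (H →L[ℂ] H) →L[ℂ] (X0 →L[ℂ] X0) :=
  (ContinuousLinearMap.compL ℂ X0 H X0 (U : H →L[ℂ] X0)).comp
    ((ContinuousLinearMap.compL ℂ X0 H H).flip (U.symm : X0 →L[ℂ] H))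

lemma conjUs_apply (T : H →L[ℂ] H) (f : X0) : conjUs T f = U (T (U.symm f)) := rfl

lemma conjU_conjUs (T : H →L[ℂ] H) : conjU (conjUs T) = T := by
  ext1 f
  rw [conjU_apply, conjUs_apply, LinearIsometryEquiv.symm_apply_apply,
    LinearIsometryEquiv.symm_apply_apply]

lemma conjUs_conjU (T : X0 →L[ℂ] X0) : conjUs (conjU T) = T := by
  ext1 f
  rw [conjUs_apply, conjU_apply, LinearIsometryEquiv.apply_symm_apply,
    LinearIsometryEquiv.apply_symm_apply]

lemma conjU_comp (S T : X0 →L[ℂ] X0) : conjU (S.comp T) = (conjU S).comp (conjU T) := by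
  ext1 f
  simp only [ContinuousLinearMap.comp_apply, conjU_apply, LinearIsometryEquiv.apply_symm_apply]

lemma conjUs_comp (S T : H →L[ℂ] H) : conjUs (S.comp T) = (conjUs S).comp (conjUs T) := by
  ext1 f
  simp only [ContinuousLinearMap.comp_apply, conjUs_apply, LinearIsometryEquiv.symm_apply_apply]

lemma bdm_Y (b : Y) : Bdm (fun z => b z) :=
  ⟨b.continuous.measurable, ‖b‖, b.norm_coe_le_norm⟩

lemma conjU_Mc (b : Y) : conjU (Mc volume b) = TP.M (fun z => b z) := by
  ext1 f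
  apply Lp.ext
  have h1 := TP.gm_ac.ae_le (Mc_coe b (U f))
  have h2 := TP.gm_ac.ae_le (U_coe f)
  filter_upwards [Us_coe (Mc volume b (U f)), h1, h2, TP.M_coe (bdm_Y b) f] with z h3 h4 h5 h6
  rw [conjU_apply, h3, h4, h5, h6]
  have := rho_ne z
  field_simp

lemma inner_U (f g : H) : inner ℂ (U f) (U g) = inner ℂ f g := U.inner_map_map f g

lemma ind_supp {K : Set ℂ} (hK : MeasurableSet K) (u : X0) (hu : ∀ᵐ z, z ∉ K → u z = 0) :
    TP.M (TP.ind K) (U.symm u) = U.symm u := by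
  apply Lp.ext
  filter_upwards [TP.M_coe (TP.Bdm_ind hK) (U.symm u), Us_coe u, TP.gm_ac.ae_le hu]
    with z h1 h2 h3
  rw [h1]
  by_cases hz : z ∈ K
  · rw [TP.ind_apply_mem hz, one_mul]
  · rw [TP.ind_apply_notMem hz, zero_mul, h2, h3 hz, zero_div]

lemma band_flat {B : H →L[ℂ] H} (hB : IsBand B) : ∃ ω, BandW ω (conjUs B) := by
  obtain ⟨w, hw, hB⟩ := hB
  refine ⟨w.toReal + 1, fun K K' hK hK' hd u v hu hv => ?_⟩
  have h1 : TP.M (TP.ind K') ∘L B ∘L TP.M (TP.ind K) = 0 := by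
    by_contra hne
    have h2 := hB K K' hK hK' hne
    have h3 : w + 1 ≤ TP.setDist K K' := by
      refine le_iInf₂ fun x hx => le_iInf₂ fun y hy => ?_
      have h4 := hd x hx y hy
      rw [edist_dist]
      have h5 : w + 1 = ENNReal.ofReal (w.toReal + 1) := by
        rw [ENNReal.ofReal_add ENNReal.toReal_nonneg zero_le_one, ENNReal.ofReal_toReal hw,
          ENNReal.ofReal_one]
      rw [h5]
      exact ENNReal.ofReal_le_ofReal h4.le
    have h6 := h3.trans h2
    exact absurd h6 (not_le.2 (ENNReal.lt_add_right hw one_ne_zero))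
  have h2 : inner ℂ v (conjUs B u) = inner ℂ (U.symm v) (B (U.symm u)) := by
    rw [conjUs_apply, ← inner_U, LinearIsometryEquiv.apply_symm_apply]
  rw [h2, ← ind_supp hK u hu, ← ind_supp hK' v hv, TP.M_adj_ind hK']
  have h3 := DFunLike.congr_fun h1 (U.symm u)
  simp only [ContinuousLinearMap.comp_apply, zero_apply] at h3
  rw [h3, inner_zero_right]

lemma supp_ind {K : Set ℂ} (hK : MeasurableSet K) (f : H) :
    ∀ᵐ z, z ∉ K → (U (TP.M (TP.ind K) f)) z = 0 := by
  filter_upwards [U_coe (TP.M (TP.ind K) f), TP.vol_ac.ae_le (TP.M_coe (TP.Bdm_ind hK) f)]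
    with z h1 h2 hz
  rw [h1, h2, TP.ind_apply_notMem hz, zero_mul, zero_mul]

lemma band_gauss {B : X0 →L[ℂ] X0} {ω : ℝ} (hB : BandW ω B) : IsBand (conjU B) := by
  refine ⟨ENNReal.ofReal ω, ENNReal.ofReal_ne_top, fun K L hK hL hne => ?_⟩
  by_contra hcon
  rw [not_le] at hcon
  apply hne
  ext1 f
  rw [zero_apply]
  refine ext_inner_left ℂ fun g => ?_
  rw [inner_zero_right, ContinuousLinearMap.comp_apply, ContinuousLinearMap.comp_apply,
    ← TP.M_adj_ind hL, ← inner_U, conjU_apply, LinearIsometryEquiv.apply_symm_apply]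
  refine hB K L hK hL (fun x hx y hy => ?_) _ _ (supp_ind hK f) (supp_ind hL g)
  have h1 : TP.setDist K L ≤ edist x y := iInf₂_le_of_le x hx (iInf₂_le y hy)
  have h2 := hcon.trans_le h1
  rw [edist_dist] at h2
  by_contra h
  exact absurd (ENNReal.ofReal_le_ofReal (not_lt.1 h)) (not_le.2 h2)

end

end Pool.Agent.W2helper14.TF
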