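import Mathlib

/-!
# Compressions to a closed subspace, general facts
-/

namespace Pool.Agent.W2helper14.TF

open Filter Topology

noncomputable section

section Gen

/-- the C*-algebra generated by a set of operators on a Hilbert space -/
def cstarGen {E : Type} [NormedAddCommGroup E] [InnerProductSpace ℂ E] [CompleteSpace E]
    (S : Set (E →L[ℂ] E)) : StarSubalgebra ℂ (E →L[ℂ] E) :=
  (StarAlgebra.adjoin ℂ S).topologicalClosure

/-- the closed linear span of a set of operators -/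
def clspan {E : Type} [NormedAddCommGroup E] [InnerProductSpace ℂ E]
    (S : Set (E →L[ℂ] E)) : Submodule ℂ (E →L[ℂ] E) :=
  (Submodule.span ℂ S).topologicalClosure

section E

variable {E : Type} [NormedAddCommGroup E] [InnerProductSpace ℂ E] [CompleteSpace E]

lemma mem_cstarGen {S : Set (E →L[ℂ] E)} {T : E →L[ℂ] E} (h : T ∈ S) : T ∈ cstarGen S :=
  StarSubalgebra.le_topologicalClosure _ (StarAlgebra.subset_adjoin ℂ _ h)

lemma clspan_le_cstarGen {S S' : Set (E →L[ℂ] E)}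
    (h : ∀ T ∈ S', ∃ A ∈ S, ∃ B ∈ S, T = A.comp B) :
    (clspan S' : Set (E →L[ℂ] E)) ⊆ (cstarGen S : Set (E →L[ℂ] E)) := by
  refine closure_minimal ?_ (StarSubalgebra.isClosed_topologicalClosure _)
  have : Submodule.span ℂ S' ≤ (cstarGen S).toSubalgebra.toSubmodule := by
    rw [Submodule.span_le]
    intro T hT
    obtain ⟨A, hA, B, hB, rfl⟩ := h T hT
    have a1 := mem_cstarGen hA
    have a2 := mem_cstarGen hB
    have a3 : A * B ∈ cstarGen S := mul_mem a1 a2
    exact a3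
  exact this

lemma cstarGen_subset {S D : Set (E →L[ℂ] E)} (hD : IsClosed D) (h0 : S ⊆ D)
    (h1 : ∀ c : ℂ, algebraMap ℂ (E →L[ℂ] E) c ∈ D) (h2 : ∀ A ∈ D, ∀ B ∈ D, A + B ∈ D)
    (h3 : ∀ A ∈ D, ∀ B ∈ D, A * B ∈ D) (h4 : ∀ A ∈ D, star A ∈ D) :
    (cstarGen S : Set (E →L[ℂ] E)) ⊆ D := by
  refine closure_minimal ?_ hD
  intro T hT
  induction hT using StarAlgebra.adjoin_induction with
  | mem T hT => exact h0 hT
  | algebraMap c => exact h1 c
  | add S T _ _ hS hT => exact h2 _ hS _ hT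
  | mul S T _ _ hS hT => exact h3 _ hS _ hT
  | star T _ hT => exact h4 _ hT

end E

variable {X : Type} [NormedAddCommGroup X] [InnerProductSpace ℂ X] [CompleteSpace X]
  (F : Submodule ℂ X) [CompleteSpace F]

/-- `f ↦ T P f` as an operator on the whole space (`P` the orthogonal projection onto `F`) -/
def extP : (F →L[ℂ] F) →L[ℂ] (X →L[ℂ] X) :=
  (ContinuousLinearMap.compL ℂ X F X F.subtypeL).comp
    ((ContinuousLinearMap.compL ℂ X F F).flip F.orthogonalProjectionOnto)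

lemma extP_apply (T : F →L[ℂ] F) (f : X) :
    extP F T f = (T (F.orthogonalProjectionOnto f) : X) := rfl

/-- compression of an operator to `F` -/
def resP : (X →L[ℂ] X) →L[ℂ] (F →L[ℂ] F) :=
  (ContinuousLinearMap.compL ℂ F X F F.orthogonalProjectionOnto).comp
    ((ContinuousLinearMap.compL ℂ F X X).flip F.subtypeL)

lemma resP_apply (T : X →L[ℂ] X) (f : F) : resP F T f = F.orthogonalProjectionOnto (T f) := rfl

lemma resP_extP (T : F →L[ℂ] F) : resP F (extP F T) = T := by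
  ext1 f
  rw [resP_apply, extP_apply, Submodule.orthogonalProjectionOnto_mem_subspace_eq_self,
    Submodule.orthogonalProjectionOnto_mem_subspace_eq_self]

lemma clspan_le (Ms Mc : Set (X →L[ℂ] X)) (hMc : Mc ⊆ Ms) :
    (clspan {T : F →L[ℂ] F | ∃ A ∈ Mc, ∃ B ∈ Mc, T = (resP F A).comp (resP F B)} :
      Set (F →L[ℂ] F)) ⊆ (cstarGen {T : F →L[ℂ] F | ∃ A ∈ Ms, T = resP F A} :
        Set (F →L[ℂ] F)) := by
  refine clspan_le_cstarGen ?_
  rintro _ ⟨A, hA, B, hB, rfl⟩
  exact ⟨resP F A, ⟨A, hMc hA, rfl⟩, resP F B, ⟨B, hMc hB, rfl⟩, rfl⟩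

variable (Q : X →L[ℂ] X) (hs : ∀ f g, inner ℂ (Q f) g = inner ℂ f (Q g))
  (h1 : ∀ f, Q f ∈ F) (h2 : ∀ f ∈ F, Q f = f)
include hs h1 h2

lemma proj_eq (f : X) : (F.orthogonalProjectionOnto f : X) = Q f := by
  have h3 := Submodule.eq_starProjection_of_mem_of_inner_eq_zero (K := F) (u := f) (h1 f)
    (fun w hw => by rw [inner_sub_left, hs, h2 w hw, sub_self])
  rw [← Submodule.starProjection_apply]
  exact h3

lemma extP_one : extP F 1 = Q := by
  ext1 f
  rw [extP_apply]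
  exact proj_eq F Q hs h1 h2 f

theorem sub1 (BD : Set (X →L[ℂ] X)) (Mc : Set (X →L[ℂ] X))
    (key : ∀ T ∈ BD, Q.comp (T.comp Q) = T → T ∈ clspan {S | ∃ A ∈ Mc, ∃ B ∈ Mc,
      S = Q.comp (A.comp (Q.comp (B.comp Q)))}) :
    {T : F →L[ℂ] F | extP F T ∈ BD} ⊆ (clspan {T : F →L[ℂ] F | ∃ A ∈ Mc, ∃ B ∈ Mc,
      T = (resP F A).comp (resP F B)} : Set (F →L[ℂ] F)) := by
  intro T hT
  have h3 := key _ hT (by
    ext1 f
    rw [ContinuousLinearMap.comp_apply, ContinuousLinearMap.comp_apply, extP_apply, extP_apply]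
    have h4 : F.orthogonalProjectionOnto (Q f) = F.orthogonalProjectionOnto f := by
      rw [← proj_eq F Q hs h1 h2 f, Submodule.orthogonalProjectionOnto_mem_subspace_eq_self]
    rw [h4, h2 _ (T (F.orthogonalProjectionOnto f)).2])
  rw [← resP_extP F T]
  refine map_mem_closure (resP F).continuous h3 ?_
  intro S hS
  have h5 : resP F S ∈ (Submodule.span ℂ {S | ∃ A ∈ Mc, ∃ B ∈ Mc,
      S = Q.comp (A.comp (Q.comp (B.comp Q)))}).map
      (resP F : (X →L[ℂ] X) →ₗ[ℂ] (F →L[ℂ] F)) := ⟨S, hS, rfl⟩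
  rw [Submodule.map_span] at h5
  refine Submodule.span_mono ?_ h5
  rintro _ ⟨S', ⟨A, hA, B, hB, rfl⟩, rfl⟩
  refine ⟨A, hA, B, hB, ?_⟩
  ext1 u
  change resP F _ u = _
  apply Subtype.ext
  simp only [ContinuousLinearMap.comp_apply, resP_apply]
  rw [h2 _ u.2, proj_eq F Q hs h1 h2, proj_eq F Q hs h1 h2, proj_eq F Q hs h1 h2]
  rw [h2 _ (h1 _)]

theorem sub2 (BD : Set (X →L[ℂ] X)) (hcl : IsClosed BD)
    (p1 : ∀ A ∈ BD, ∀ B ∈ BD, A ∘L B ∈ BD)
    (p2 : ∀ A ∈ BD, ContinuousLinearMap.adjoint A ∈ BD)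
    (p4 : ∀ A ∈ BD, ∀ B ∈ BD, A + B ∈ BD)
    (p5 : ∀ (c : ℂ), ∀ A ∈ BD, c • A ∈ BD) (hQ : Q ∈ BD)
    (Ms : Set (X →L[ℂ] X)) (hMs : Ms ⊆ BD) :
    (cstarGen {T : F →L[ℂ] F | ∃ A ∈ Ms, T = resP F A} : Set (F →L[ℂ] F)) ⊆
      {T : F →L[ℂ] F | extP F T ∈ BD} := by
  have hcl2 : IsClosed {T : F →L[ℂ] F | extP F T ∈ BD} := hcl.preimage (extP F).continuous
  refine cstarGen_subset hcl2 ?_ ?_ ?_ ?_ ?_
  · rintro _ ⟨A, hA, rfl⟩
    have h3 : extP F (resP F A) = Q.comp (A.comp Q) := by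
      ext1 f
      rw [extP_apply, resP_apply]
      simp only [ContinuousLinearMap.comp_apply]
      rw [proj_eq F Q hs h1 h2, proj_eq F Q hs h1 h2]
    change extP F (resP F A) ∈ BD
    rw [h3]
    exact p1 _ hQ _ (p1 _ (hMs hA) _ hQ)
  · intro c
    have h3 : extP F (algebraMap ℂ (F →L[ℂ] F) c) = c • Q := by
      rw [Algebra.algebraMap_eq_smul_one]
      ext1 f
      rw [smul_apply, extP_apply, ← proj_eq F Q hs h1 h2 f]
      rfl
    change extP F _ ∈ BD
    rw [h3]
    exact p5 c _ hQ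
  · intro S hS T hT
    change extP F (S + T) ∈ BD
    rw [map_add]
    exact p4 _ hS _ hT
  · intro S hS T hT
    have h3 : extP F (S * T) = (extP F S).comp (extP F T) := by
      ext1 f
      rw [extP_apply, ContinuousLinearMap.comp_apply, extP_apply, extP_apply,
        Submodule.orthogonalProjectionOnto_mem_subspace_eq_self]
      rfl
    change extP F (S * T) ∈ BD
    rw [h3]
    exact p1 _ hS _ hT
  · intro T hT
    have h3 : extP F (star T) = ContinuousLinearMap.adjoint (extP F T) := by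
      rw [ContinuousLinearMap.eq_adjoint_iff]
      intro f g
      rw [extP_apply, extP_apply, ContinuousLinearMap.star_eq_adjoint]
      have e1 : inner ℂ ((ContinuousLinearMap.adjoint T (F.orthogonalProjectionOnto f) : F) : X) g =
          inner ℂ (ContinuousLinearMap.adjoint T (F.orthogonalProjectionOnto f))
            (F.orthogonalProjectionOnto g) :=
        (Submodule.inner_orthogonalProjectionOnto_eq_of_mem_left _ _).symm
      have e2 : inner ℂ f ((T (F.orthogonalProjectionOnto g) : F) : X) =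
          inner ℂ (F.orthogonalProjectionOnto f) (T (F.orthogonalProjectionOnto g)) :=
        (Submodule.inner_orthogonalProjectionOnto_eq_of_mem_right _ _).symm
      rw [e1, e2, ContinuousLinearMap.adjoint_inner_left]
    change extP F (star T) ∈ BD
    rw [h3]
    exact p2 _ hT

end Gen

end

end Pool.Agent.W2helper14.TF
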