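import Pool.Agent.W2helper14.TF.G
import Pool.Agent.W2helper14.TF.I0

/-!
# Band-dominated operators on a closed subspace of `L²(ℂ, gm)` and Toeplitz operators
-/

namespace Pool.Agent.W2helper14.TF

open MeasureTheory Complex Filter Topology
open scoped ENNReal ComplexConjugate BoundedContinuousFunction

noncomputable section

open TP (gm H dens BDO IsBand Bdm)

section Main

variable {κ : ℂ → ℂ} (hK : Ker κ)

/-- the projection in the Gaussian picture -/
def QQ : H →L[ℂ] H := conjU (PP κ hK.int)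

theorem gauss_main (hPP : ∀ u, PP κ hK.int (PP κ hK.int u) = PP κ hK.int u)
    {T : H →L[ℂ] H} (hT : T ∈ BDO) (hTP : (QQ hK).comp (T.comp (QQ hK)) = T) :
    T ∈ closure ((Submodule.span ℂ {S | ∃ f g : Y, S = (QQ hK).comp ((TP.M fun z => f z).comp
      ((QQ hK).comp ((TP.M fun z => g z).comp (QQ hK))))} :
        Submodule ℂ (H →L[ℂ] H)) : Set (H →L[ℂ] H)) := by
  have h1 : conjUs T ∈ closure {B | ∃ ω, BandW ω B} :=
    map_mem_closure conjUs.continuous hT fun B hB => band_flat hB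
  have h2 : cmp κ hK.int (conjUs T) = conjUs T := by
    conv_rhs => rw [← hTP]
    rw [conjUs_comp, conjUs_comp, QQ, conjUs_conjU, cmp_apply]
  have h3 := flat_main hK (fun u v => PP_symm hK.int hK.sym u v) hPP h1 h2
  have h4 : conjU (conjUs T) ∈ closure (conjU '' ((Submodule.span ℂ
      {T | ∃ f g : Y, T = (PP κ hK.int).comp ((Mc volume f).comp
        ((PP κ hK.int).comp ((Mc volume g).comp (PP κ hK.int))))} :
        Submodule ℂ (X0 →L[ℂ] X0)) : Set (X0 →L[ℂ] X0))) := by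
    refine image_closure_subset_closure_image conjU.continuous ⟨conjUs T, ?_, rfl⟩
    exact h3
  rw [conjU_conjUs] at h4
  refine closure_mono ?_ h4
  rintro _ ⟨S, hS, rfl⟩
  have h5 : conjU S ∈ (Submodule.span ℂ {T | ∃ f g : Y, T = (PP κ hK.int).comp
      ((Mc volume f).comp ((PP κ hK.int).comp ((Mc volume g).comp (PP κ hK.int))))}).map
      (conjU : (X0 →L[ℂ] X0) →ₗ[ℂ] (H →L[ℂ] H)) := ⟨S, hS, rfl⟩
  rw [Submodule.map_span] at h5
  refine Submodule.span_mono ?_ h5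
  rintro _ ⟨S', ⟨f, g, rfl⟩, rfl⟩
  refine ⟨f, g, ?_⟩
  change conjU _ = _
  rw [conjU_comp, conjU_comp, conjU_comp, conjU_comp, conjU_Mc, conjU_Mc]
  rfl

theorem QQ_mem_BDO : QQ hK ∈ BDO := by
  refine map_mem_closure conjU.continuous (PP_mem hK) ?_
  rintro B ⟨ω, hB⟩
  exact band_gauss hB

lemma QQ_symm (f g : H) : inner ℂ (QQ hK f) g = inner ℂ f (QQ hK g) := by
  rw [QQ, conjU_apply, conjU_apply, ← inner_U, LinearIsometryEquiv.apply_symm_apply,
    PP_symm hK.int hK.sym, ← inner_U f, LinearIsometryEquiv.apply_symm_apply]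

end Main

section Sub

/-- the Toeplitz operator `T_a f = P (a f)` on a closed subspace `F` of `L²(ℂ, gm)` with
orthogonal projection `P` -/
def toep (F : Submodule ℂ H) [CompleteSpace F] (a : ℂ → ℂ) : F →L[ℂ] F := resP F (TP.M a)

/-- the band-dominated operators on `F`: the operators `T` such that `T P` is a norm limit of band
operators on `L²(ℂ, gm)` -/
def bandDom (F : Submodule ℂ H) [CompleteSpace F] : Set (F →L[ℂ] F) := {T | extP F T ∈ BDO}

/-- the C*-algebra generated by the Toeplitz operators with bounded symbols -/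
def toepAlg (F : Submodule ℂ H) [CompleteSpace F] : Set (F →L[ℂ] F) :=
  cstarGen {T : F →L[ℂ] F | ∃ a, Bdm a ∧ T = toep F a}

/-- the closed linear span of the products of two Toeplitz operators with bounded continuous
symbols -/
def toepTwo (F : Submodule ℂ H) [CompleteSpace F] : Set (F →L[ℂ] F) :=
  clspan {T : F →L[ℂ] F | ∃ a b : Y, T = (toep F fun z => a z).comp (toep F fun z => b z)}

variable (F : Submodule ℂ H) [CompleteSpace F] {κ : ℂ → ℂ} (hK : Ker κ)
  (h1 : ∀ f, QQ hK f ∈ F) (h2 : ∀ f ∈ F, QQ hK f = f)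
include h1 h2

lemma idem (u : X0) : PP κ hK.int (PP κ hK.int u) = PP κ hK.int u := by
  have h3 := h2 _ (h1 (U.symm u))
  rw [QQ, conjU_apply, conjU_apply, LinearIsometryEquiv.apply_symm_apply,
    LinearIsometryEquiv.apply_symm_apply] at h3
  exact U.symm.injective h3

/-- band-dominated operators = C*-algebra generated by Toeplitz operators = closed linear span of
the products of two Toeplitz operators with bounded continuous symbols -/
theorem bandDom_eq : bandDom F = toepAlg F ∧ toepAlg F = toepTwo F := by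
  obtain ⟨p1, p2, p3, p4, p5⟩ := TP.piece_BDO
  set Ms : Set (H →L[ℂ] H) := {A | ∃ a, Bdm a ∧ A = TP.M a} with hMs
  set Mb : Set (H →L[ℂ] H) := {A | ∃ b : Y, A = TP.M fun z => b z} with hMb
  have hsub : Mb ⊆ Ms := by
    rintro _ ⟨b, rfl⟩
    exact ⟨_, bdm_Y b, rfl⟩
  have e1 : {T : F →L[ℂ] F | ∃ A ∈ Ms, T = resP F A} =
      {T : F →L[ℂ] F | ∃ a, Bdm a ∧ T = toep F a} := by
    ext T
    constructor
    · rintro ⟨_, ⟨a, ha, rfl⟩, rfl⟩
      exact ⟨a, ha, rfl⟩
    · rintro ⟨a, ha, rfl⟩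
      exact ⟨_, ⟨a, ha, rfl⟩, rfl⟩
  have e2 : {T : F →L[ℂ] F | ∃ A ∈ Mb, ∃ B ∈ Mb, T = (resP F A).comp (resP F B)} =
      {T : F →L[ℂ] F | ∃ a b : Y, T = (toep F fun z => a z).comp (toep F fun z => b z)} := by
    ext T
    constructor
    · rintro ⟨_, ⟨a, rfl⟩, _, ⟨b, rfl⟩, rfl⟩
      exact ⟨a, b, rfl⟩
    · rintro ⟨a, b, rfl⟩
      exact ⟨_, ⟨a, rfl⟩, _, ⟨b, rfl⟩, rfl⟩
  have e3 : {S : H →L[ℂ] H | ∃ A ∈ Mb, ∃ B ∈ Mb,
      S = (QQ hK).comp (A.comp ((QQ hK).comp (B.comp (QQ hK))))} =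
      {S | ∃ f g : Y, S = (QQ hK).comp ((TP.M fun z => f z).comp
      ((QQ hK).comp ((TP.M fun z => g z).comp (QQ hK))))} := by
    ext T
    constructor
    · rintro ⟨_, ⟨a, rfl⟩, _, ⟨b, rfl⟩, rfl⟩
      exact ⟨a, b, rfl⟩
    · rintro ⟨a, b, rfl⟩
      exact ⟨_, ⟨a, rfl⟩, _, ⟨b, rfl⟩, rfl⟩
  have a1 := sub1 F (QQ hK) (QQ_symm hK) h1 h2 BDO Mb (fun T hT hTP => by
    rw [e3]
    exact gauss_main hK (idem F hK h1 h2) hT hTP)
  have a2 := sub2 F (QQ hK) (QQ_symm hK) h1 h2 BDO isClosed_closure p1 p2 p4 p5 (QQ_mem_BDO hK)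
    Ms (by rintro _ ⟨a, ha, rfl⟩; exact p3 a ha)
  have a3 := clspan_le F Ms Mb hsub
  rw [e2] at a1 a3
  rw [e1] at a2 a3
  exact ⟨Set.Subset.antisymm (a1.trans a3) a2, Set.Subset.antisymm (a2.trans a1) a3⟩

end Sub

end

end Pool.Agent.W2helper14.TF
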