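import Pool.Agent.W2helper14.TF.I

/-!
# Radial kernels: the operator `Q f (z) = ∫ exp (z conj x) L (x - z) f x dgm(x)`
-/

namespace Pool.Agent.W2helper14.TF

open MeasureTheory Complex Filter Topology
open scoped ENNReal ComplexConjugate BoundedContinuousFunction

noncomputable section

open TP (gm H dens BDO IsBand Bdm)

/-- even continuous real kernels of polynomial growth, nonzero almost everywhere -/
structure RK (L : ℂ → ℝ) : Prop where
  cont : Continuous L
  even : ∀ z, L (-z) = L z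
  growth : ∃ (C : ℝ) (N : ℕ), ∀ z, |L z| ≤ C * (1 + ‖z‖) ^ N
  ne0 : ∀ᵐ z : ℂ, L z ≠ 0

/-- the flat kernel -/
def kap (L : ℂ → ℝ) (y : ℂ) : ℂ := ((L y * Real.exp (-‖y‖ ^ 2 / 2) / Real.pi : ℝ) : ℂ)

lemma kap_bound {L : ℂ → ℝ} (hL : RK L) : ∃ A, ∀ z, ‖kap L z‖ ≤ A * Real.exp (-‖z‖) := by
  obtain ⟨C, N, hC⟩ := hL.growth
  have hC0 : 0 ≤ C := by
    have := (abs_nonneg _).trans (hC 0)
    simpa using this
  refine ⟨C * (N.factorial * Real.exp 3), fun z => ?_⟩
  set t := ‖z‖ with ht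
  have ht0 : 0 ≤ t := norm_nonneg z
  have h1 : (1 + t) ^ N ≤ N.factorial * Real.exp (1 + t) := by
    have := Real.pow_div_factorial_le_exp (1 + t) (by linarith) N
    rw [div_le_iff₀ (by positivity)] at this
    linarith
  rw [kap, Complex.norm_real, Real.norm_eq_abs, abs_div, abs_mul, abs_of_pos (Real.exp_pos _),
    abs_of_pos Real.pi_pos, ← ht]
  have h2 : Real.exp (1 + t) * Real.exp (-t ^ 2 / 2) ≤ Real.exp 3 * Real.exp (-t) := by
    rw [← Real.exp_add, ← Real.exp_add]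
    refine Real.exp_le_exp.2 ?_
    nlinarith [sq_nonneg (t - 2)]
  calc |L z| * Real.exp (-t ^ 2 / 2) / Real.pi ≤ |L z| * Real.exp (-t ^ 2 / 2) :=
        div_le_self (by positivity) (by linarith [Real.pi_gt_three])
    _ ≤ C * (N.factorial * Real.exp (1 + t)) * Real.exp (-t ^ 2 / 2) := by
        refine mul_le_mul_of_nonneg_right ((hC z).trans ?_) (Real.exp_pos _).le
        exact mul_le_mul_of_nonneg_left h1 hC0
    _ = C * N.factorial * (Real.exp (1 + t) * Real.exp (-t ^ 2 / 2)) := by ring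
    _ ≤ C * N.factorial * (Real.exp 3 * Real.exp (-t)) :=
        mul_le_mul_of_nonneg_left h2 (by positivity)
    _ = _ := by ring

lemma kap_cont {L : ℂ → ℝ} (hL : RK L) : Continuous (kap L) := by
  have := hL.cont
  unfold kap
  fun_prop

lemma ker_kap {L : ℂ → ℝ} (hL : RK L) : Ker (kap L) where
  int := by
    obtain ⟨A, hA⟩ := kap_bound hL
    refine Integrable.mono' ((integrable_exp_neg 1 one_pos).const_mul A)
      (kap_cont hL).aestronglyMeasurable (ae_of_all _ fun z => ?_)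
    simpa using hA z
  mem2 := by
    obtain ⟨A, hA⟩ := kap_bound hL
    rw [memLp_two_iff_integrable_sq_norm (kap_cont hL).aestronglyMeasurable]
    refine Integrable.mono' ((integrable_exp_neg 2 two_pos).const_mul (A ^ 2))
      ((kap_cont hL).norm.pow 2).aestronglyMeasurable (ae_of_all _ fun z => ?_)
    rw [norm_pow, norm_norm]
    calc ‖kap L z‖ ^ 2 ≤ (A * Real.exp (-‖z‖)) ^ 2 := pow_le_pow_left₀ (norm_nonneg _) (hA z) 2
      _ = A ^ 2 * Real.exp (-2 * ‖z‖) := by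
        rw [mul_pow, ← Real.exp_nat_mul]
        congr 2
        push_cast; ring
  ne0 := by
    filter_upwards [hL.ne0] with z hz
    unfold kap
    have h1 : L z * Real.exp (-‖z‖ ^ 2 / 2) / Real.pi ≠ 0 := by
      have := Real.exp_pos (-‖z‖ ^ 2 / 2)
      have := Real.pi_pos
      positivity
    exact_mod_cast h1
  sym := fun z => by
    unfold kap
    rw [Complex.conj_ofReal, hL.even, norm_neg]
  dec := kap_bound hL

lemma gm_integral_cplx (F : ℂ → ℂ) :
    ∫ z, F z ∂gm = ∫ z : ℂ, ((Real.exp (-‖z‖ ^ 2) / Real.pi : ℝ) : ℂ) * F z :=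
  TP.Rep.gm_integral F

/-- formula for the operator `Q` -/
lemma QQ_coe {L : ℂ → ℝ} (hL : RK L) (f : H) :
    QQ (ker_kap hL) f =ᵐ[gm] fun z => ∫ x, exp (z * conj x) * (L (x - z) : ℂ) * f x ∂gm := by
  have hK := ker_kap hL
  have h1 := Us_coe (PP (kap L) hK.int (U f))
  have h2 := TP.gm_ac.ae_le (PP_ae hK.int hK.mem2 hK.sym (U f))
  filter_upwards [h1, h2] with z h3 h4
  rw [QQ, conjU_apply, h3, h4, inner_eq, gm_integral_cplx, ← integral_div]
  refine integral_congr_ae ?_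
  have h0 : ∀ᵐ x : ℂ, (hK.mem2.toLp (kap L) : ℂ → ℂ) (x - z) = kap L (x - z) :=
    (measurePreserving_sub_right volume z).quasiMeasurePreserving.tendsto_ae
      (MemLp.coeFn_toLp hK.mem2)
  filter_upwards [tw_coe 1 z (hK.mem2.toLp (kap L)), h0, U_coe f] with x h5 h6 h7
  rw [h5, h6, h7, map_mul]
  unfold kap rho
  rw [Complex.conj_ofReal, ph_apply, ← Complex.exp_conj, map_mul, conj_I, Complex.conj_ofReal]
  have hpi : (0 : ℝ) < Real.sqrt Real.pi := Real.sqrt_pos.2 Real.pi_pos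
  have hpi2 : Real.sqrt Real.pi * Real.sqrt Real.pi = Real.pi := Real.mul_self_sqrt Real.pi_pos.le
  have key : cexp (((1 * (x * conj z).im : ℝ) : ℂ) * -I) *
      ((Real.exp (-‖x - z‖ ^ 2 / 2) : ℝ) : ℂ) * ((Real.exp (-‖x‖ ^ 2 / 2) : ℝ) : ℂ) =
      ((Real.exp (-‖x‖ ^ 2) : ℝ) : ℂ) * cexp (z * conj x) *
        ((Real.exp (-‖z‖ ^ 2 / 2) : ℝ) : ℂ) := by
    rw [Complex.ofReal_exp, Complex.ofReal_exp, Complex.ofReal_exp, Complex.ofReal_exp,
      ← Complex.exp_add, ← Complex.exp_add, ← Complex.exp_add, ← Complex.exp_add]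
    congr 1
    have e1 : ‖x - z‖ ^ 2 = ‖x‖ ^ 2 + ‖z‖ ^ 2 - 2 * (x * conj z).re := by
      rw [← Complex.normSq_eq_norm_sq, ← Complex.normSq_eq_norm_sq, ← Complex.normSq_eq_norm_sq,
        Complex.normSq_sub]
    rw [e1]
    have e2 : z * conj x = (((x * conj z).re : ℝ) : ℂ) - (((x * conj z).im : ℝ) : ℂ) * I := by
      have e3 := Complex.re_add_im (x * conj z)
      have e4 : z * conj x = conj (x * conj z) := by
        rw [map_mul, Complex.conj_conj, mul_comm]
      rw [e4]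
      conv_lhs => rw [← e3]
      rw [map_add, map_mul, conj_I, Complex.conj_ofReal, Complex.conj_ofReal]
      ring
    rw [e2]
    push_cast
    ring
  have hz : Real.exp (-‖z‖ ^ 2 / 2) ≠ 0 := (Real.exp_pos _).ne'
  generalize Real.exp (-‖x - z‖ ^ 2 / 2) = E1 at key ⊢
  generalize Real.exp (-‖x‖ ^ 2 / 2) = E2 at key ⊢
  generalize Real.exp (-‖x‖ ^ 2) = E3 at key ⊢
  generalize Real.exp (-‖z‖ ^ 2 / 2) = E4 at key hz ⊢
  generalize cexp (((1 * (x * conj z).im : ℝ) : ℂ) * -I) = A1 at key ⊢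
  generalize cexp (z * conj x) = A2 at key ⊢
  push_cast
  have hs : ((Real.sqrt Real.pi : ℝ) : ℂ) ≠ 0 := by exact_mod_cast hpi.ne'
  have hp : ((Real.pi : ℝ) : ℂ) ≠ 0 := by exact_mod_cast Real.pi_ne_zero
  have hz' : (E4 : ℂ) ≠ 0 := by exact_mod_cast hz
  field_simp
  linear_combination (f x * (L (x - z) : ℂ)) * key

end

end Pool.Agent.W2helper14.TF
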