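import Pool.Agent.W2helper14.TF.J
import Pool.Agent.W2helper17.TP.Stm2
import Pool.Agent.W2helper17.TP.Final

/-!
# Parameter integrals are polyanalytic
-/

namespace Pool.Agent.W2helper14.TF

open MeasureTheory Complex Filter Topology
open scoped ENNReal ComplexConjugate BoundedContinuousFunction

noncomputable section

open TP (gm H dens BDO IsBand Bdm pa)

/-- continuous functions of exponential growth -/
def EB (g : ℂ → ℂ) : Prop :=
  Continuous g ∧ ∃ C M : ℝ, 0 ≤ C ∧ 0 ≤ M ∧ ∀ x, ‖g x‖ ≤ C * Real.exp (M * ‖x‖)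

lemma EB.mul {f g : ℂ → ℂ} (hf : EB f) (hg : EB g) : EB (fun x => f x * g x) := by
  obtain ⟨cf, C, M, hC, hM, h⟩ := hf
  obtain ⟨cg, C', M', hC', hM', h'⟩ := hg
  refine ⟨cf.mul cg, C * C', M + M', by positivity, by positivity, fun x => ?_⟩
  rw [norm_mul]
  calc ‖f x‖ * ‖g x‖ ≤ (C * Real.exp (M * ‖x‖)) * (C' * Real.exp (M' * ‖x‖)) :=
        mul_le_mul (h x) (h' x) (norm_nonneg _) (by positivity)
    _ = C * C' * Real.exp ((M + M') * ‖x‖) := by
        rw [add_mul, Real.exp_add]; ring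

lemma EB.add {f g : ℂ → ℂ} (hf : EB f) (hg : EB g) : EB (fun x => f x + g x) := by
  obtain ⟨cf, C, M, hC, hM, h⟩ := hf
  obtain ⟨cg, C', M', hC', hM', h'⟩ := hg
  refine ⟨cf.add cg, C + C', M + M', by positivity, by positivity, fun x => ?_⟩
  have h1 : Real.exp (M * ‖x‖) ≤ Real.exp ((M + M') * ‖x‖) := by
    apply Real.exp_le_exp.2
    have := norm_nonneg x
    nlinarith [mul_nonneg hM' this]
  have h2 : Real.exp (M' * ‖x‖) ≤ Real.exp ((M + M') * ‖x‖) := by
    apply Real.exp_le_exp.2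
    have := norm_nonneg x
    nlinarith [mul_nonneg hM this]
  calc ‖f x + g x‖ ≤ ‖f x‖ + ‖g x‖ := norm_add_le _ _
    _ ≤ C * Real.exp (M * ‖x‖) + C' * Real.exp (M' * ‖x‖) := add_le_add (h x) (h' x)
    _ ≤ C * Real.exp ((M + M') * ‖x‖) + C' * Real.exp ((M + M') * ‖x‖) := by gcongr
    _ = _ := by ring

lemma EB.const (c : ℂ) : EB (fun _ => c) :=
  ⟨continuous_const, ‖c‖, 0, norm_nonneg _, le_rfl, fun x => by simp⟩

lemma EB.id : EB (fun x => x) :=
  ⟨continuous_id, 1, 1, zero_le_one, zero_le_one, fun x => by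
    have := Real.add_one_le_exp ‖x‖
    rw [one_mul, one_mul]; linarith⟩

lemma EB.conj' : EB (fun x => conj x) :=
  ⟨Complex.continuous_conj, 1, 1, zero_le_one, zero_le_one, fun x => by
    have := Real.add_one_le_exp ‖x‖
    rw [one_mul, one_mul, RCLike.norm_conj]; linarith⟩

lemma EB.pow {f : ℂ → ℂ} (hf : EB f) (n : ℕ) : EB (fun x => f x ^ n) := by
  induction n with
  | zero => simpa using EB.const 1
  | succ n ih =>
    have := ih.mul hf
    simpa [pow_succ] using this

lemma EB.congr {f g : ℂ → ℂ} (hf : EB f) (h : ∀ x, f x = g x) : EB g := by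
  have : f = g := funext h
  rwa [← this]

lemma EB.sub {f g : ℂ → ℂ} (hf : EB f) (hg : EB g) : EB (fun x => f x - g x) :=
  (hf.add ((EB.const (-1)).mul hg)).congr fun x => by ring

lemma norm_exp_le (z x : ℂ) : ‖cexp (z * conj x)‖ ≤ Real.exp (‖z‖ * ‖x‖) := by
  rw [Complex.norm_exp]
  refine Real.exp_le_exp.2 ((Complex.re_le_norm _).trans ?_)
  rw [norm_mul, RCLike.norm_conj]

lemma EB.exp (z : ℂ) : EB (fun x => cexp (z * conj x)) :=
  ⟨by fun_prop, 1, ‖z‖, zero_le_one, norm_nonneg _, fun x => by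
    rw [one_mul]; exact norm_exp_le z x⟩

lemma EB.memLp {g : ℂ → ℂ} (hg : EB g) : MemLp g 2 gm := by
  obtain ⟨cg, C, M, hC, hM, h⟩ := hg
  refine MemLp.of_le_mul (c := C) (TP.V.exp_memLp M hM) cg.aestronglyMeasurable
    (ae_of_all _ fun x => ?_)
  rw [Real.norm_of_nonneg (Real.exp_pos _).le]
  exact h x

lemma EB.integrable {g : ℂ → ℂ} (hg : EB g) (f : H) : Integrable (fun x => g x * f x) gm :=
  hg.memLp.integrable_mul (Lp.memLp f)

/-- basic entire parameter integrals -/
def EE (f : H) (a b : ℕ) (z : ℂ) : ℂ := ∫ x, (cexp (z * conj x) * (x ^ a * conj x ^ b)) * f x ∂gm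

lemma EE_deriv (f : H) (a b : ℕ) (z₀ : ℂ) : HasDerivAt (EE f a b) (EE f a (b + 1) z₀) z₀ := by
  set M : ℝ := ‖z₀‖ + 1 with hM
  set g : ℂ → ℂ := fun x => (Real.exp (M * ‖x‖) : ℂ) * (x ^ a * conj x ^ (b + 1)) with hg
  have hgE : EB g := by
    refine EB.mul ⟨by fun_prop, 1, M, zero_le_one, by positivity, fun x => ?_⟩
      ((EB.id.pow a).mul (EB.conj'.pow (b + 1)))
    rw [one_mul, Complex.norm_real, Real.norm_of_nonneg (Real.exp_pos _).le]
  have hb := (hgE.integrable f).norm
  refine (hasDerivAt_integral_of_dominated_loc_of_deriv_le (μ := gm) (s := Metric.ball z₀ 1)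
    (bound := fun x => ‖g x * f x‖)
    (F := fun z x => (cexp (z * conj x) * (x ^ a * conj x ^ b)) * f x)
    (F' := fun z x => (cexp (z * conj x) * (x ^ a * conj x ^ (b + 1))) * f x)
    (Metric.ball_mem_nhds z₀ one_pos) (Eventually.of_forall fun z => ?_) ?_ ?_ ?_ hb ?_).2
  · exact (((EB.exp z).mul ((EB.id.pow a).mul (EB.conj'.pow b))).integrable f).1
  · exact ((EB.exp z₀).mul ((EB.id.pow a).mul (EB.conj'.pow b))).integrable f
  · exact (((EB.exp z₀).mul ((EB.id.pow a).mul (EB.conj'.pow (b + 1)))).integrable f).1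
  · refine ae_of_all _ fun x z hz => ?_
    have hz' : ‖z‖ ≤ M := by
      rw [Metric.mem_ball, dist_eq_norm] at hz
      have := norm_sub_norm_le z z₀
      rw [hM]; linarith
    rw [hg]
    simp only
    simp only [norm_mul]
    rw [Complex.norm_real, Real.norm_of_nonneg (Real.exp_pos _).le]
    refine mul_le_mul_of_nonneg_right (mul_le_mul_of_nonneg_right ?_ (by positivity))
      (norm_nonneg _)
    refine (norm_exp_le z x).trans (Real.exp_le_exp.2 ?_)
    exact mul_le_mul_of_nonneg_right hz' (norm_nonneg _)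
  · refine ae_of_all _ fun x z _ => ?_
    have h1 : HasDerivAt (fun z : ℂ => cexp (z * conj x)) (cexp (z * conj x) * conj x) z := by
      have := (hasDerivAt_mul_const (x := z) (conj x)).cexp
      simpa using this
    have h2 := (h1.mul_const (x ^ a * conj x ^ b)).mul_const (f x)
    refine h2.congr_deriv ?_
    rw [pow_succ]; ring

lemma EE_diff (f : H) (a b : ℕ) : Differentiable ℂ (EE f a b) := fun z =>
  (EE_deriv f a b z).differentiableAt

/-- polyanalytic functions of order `n` -/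
def PA (n : ℕ) (F : ℂ → ℂ) : Prop :=
  ∃ h : ℕ → ℂ → ℂ, (∀ j, Differentiable ℂ (h j)) ∧ ∀ z, F z = pa n h z

lemma PA.add {n : ℕ} {F G : ℂ → ℂ} (hF : PA n F) (hG : PA n G) : PA n (fun z => F z + G z) := by
  obtain ⟨h, hh, e⟩ := hF
  obtain ⟨k, hk, e'⟩ := hG
  refine ⟨fun j z => h j z + k j z, fun j => (hh j).add (hk j), fun z => ?_⟩
  simp only
  rw [e, e', pa, pa, pa, ← Finset.sum_add_distrib]
  exact Finset.sum_congr rfl fun j _ => by ring

lemma PA.mulE {n : ℕ} {F g : ℂ → ℂ} (hF : PA n F) (hg : Differentiable ℂ g) :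
    PA n (fun z => g z * F z) := by
  obtain ⟨h, hh, e⟩ := hF
  refine ⟨fun j z => g z * h j z, fun j => hg.mul (hh j), fun z => ?_⟩
  simp only
  rw [e, pa, pa, Finset.mul_sum]
  exact Finset.sum_congr rfl fun j _ => by ring

lemma PA.zero (n : ℕ) : PA n (fun _ => 0) :=
  ⟨fun _ _ => 0, fun _ => differentiable_const _, fun z => by simp [pa]⟩

lemma PA.sub {n : ℕ} {F G : ℂ → ℂ} (hF : PA n F) (hG : PA n G) : PA n (fun z => F z - G z) := by
  have := hF.add (hG.mulE (differentiable_const (-1)))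
  obtain ⟨h, hh, e⟩ := this
  exact ⟨h, hh, fun z => by rw [← e]; ring⟩

lemma PA.congr {n : ℕ} {F G : ℂ → ℂ} (hF : PA n F) (h : ∀ z, G z = F z) : PA n G := by
  have : G = F := funext h
  rwa [this]

lemma PA.mono {n m : ℕ} (hnm : n ≤ m) {F : ℂ → ℂ} (hF : PA n F) : PA m F := by
  obtain ⟨h, hh, e⟩ := hF
  refine ⟨fun j z => if j < n then h j z else 0, fun j => ?_, fun z => ?_⟩
  · by_cases hj : j < n
    · simpa [hj] using hh j
    · simp [hj]
  · rw [e, pa, pa]
    have h1 : Finset.range n ⊆ Finset.range m := Finset.range_mono hnm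
    rw [← Finset.sum_subset h1]
    · refine Finset.sum_congr rfl fun j hj => ?_
      rw [if_pos (Finset.mem_range.1 hj)]
    · intro j _ hj
      rw [Finset.mem_range] at hj
      rw [if_neg hj, zero_mul]

lemma PA.conjMul {n : ℕ} {F : ℂ → ℂ} (hF : PA n F) : PA (n + 1) (fun z => conj z * F z) := by
  obtain ⟨h, hh, e⟩ := hF
  refine ⟨fun j z => match j with
    | 0 => 0
    | j + 1 => h j z, fun j => ?_, fun z => ?_⟩
  · cases j with
    | zero => exact differentiable_const _
    | succ j => exact hh j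
  · simp only
    rw [e, pa, pa, Finset.sum_range_succ', Finset.mul_sum]
    simp only [zero_mul, add_zero]
    exact Finset.sum_congr rfl fun j _ => by rw [pow_succ]; ring

lemma PA.entire {F : ℂ → ℂ} (hF : Differentiable ℂ F) : PA 1 F :=
  ⟨fun _ => F, fun _ => hF, fun z => by simp [pa]⟩

lemma PA.sum {n : ℕ} {ι : Type} (s : Finset ι) (F : ι → ℂ → ℂ) (hF : ∀ i ∈ s, PA n (F i)) :
    PA n (fun z => ∑ i ∈ s, F i z) := by
  classical
  induction s using Finset.induction_on with
  | empty => simpa using PA.zero n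
  | insert i s hi ih =>
    have h1 := (hF i (Finset.mem_insert_self i s)).add
      (ih fun j hj => hF j (Finset.mem_insert_of_mem hj))
    refine h1.congr fun z => ?_
    rw [Finset.sum_insert hi]

/-- the parameter integrals with powers of `x - z` and its conjugate -/
def GG (f : H) (c d a b : ℕ) (z : ℂ) : ℂ :=
  ∫ x, (cexp (z * conj x) * ((x - z) ^ c * (conj x - conj z) ^ d * (x ^ a * conj x ^ b))) * f x ∂gm

lemma EB_GG (c d a b : ℕ) (z : ℂ) :
    EB (fun x => cexp (z * conj x) * ((x - z) ^ c * (conj x - conj z) ^ d * (x ^ a * conj x ^ b))) :=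
  (EB.exp z).mul ((((EB.id.sub (EB.const z)).pow c).mul
    ((EB.conj'.sub (EB.const (conj z))).pow d)).mul ((EB.id.pow a).mul (EB.conj'.pow b)))

lemma GG_succ_c (f : H) (c d a b : ℕ) (z : ℂ) :
    GG f (c + 1) d a b z = GG f c d (a + 1) b z - z * GG f c d a b z := by
  unfold GG
  rw [← integral_const_mul, ← integral_sub ((EB_GG c d (a + 1) b z).integrable f)
    (((EB_GG c d a b z).integrable f).const_mul z)]
  refine integral_congr_ae (ae_of_all _ fun x => ?_)
  simp only
  ring

lemma GG_succ_d (f : H) (c d a b : ℕ) (z : ℂ) :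
    GG f c (d + 1) a b z = GG f c d a (b + 1) z - conj z * GG f c d a b z := by
  unfold GG
  rw [← integral_const_mul, ← integral_sub ((EB_GG c d a (b + 1) z).integrable f)
    (((EB_GG c d a b z).integrable f).const_mul (conj z))]
  refine integral_congr_ae (ae_of_all _ fun x => ?_)
  simp only
  ring

lemma PA_GG0 (f : H) (c : ℕ) : ∀ a b, PA 1 (GG f c 0 a b) := by
  induction c with
  | zero =>
    intro a b
    refine (PA.entire (EE_diff f a b)).congr fun z => ?_
    unfold GG EE
    refine integral_congr_ae (ae_of_all _ fun x => ?_)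
    simp only
    ring
  | succ c ih =>
    intro a b
    refine ((ih (a + 1) b).sub ((ih a b).mulE differentiable_id)).congr fun z => ?_
    rw [GG_succ_c]
    rfl

lemma PA_GG (f : H) (c d : ℕ) : ∀ a b, PA (d + 1) (GG f c d a b) := by
  induction d with
  | zero => exact PA_GG0 f c
  | succ d ih =>
    intro a b
    refine (((ih a (b + 1)).mono (Nat.le_succ _)).sub ((ih a b).conjMul)).congr fun z => ?_
    rw [GG_succ_d]

end

end Pool.Agent.W2helper14.TF
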