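import Pool.Agent.W2helper14.TF.K

/-!
# The reproducing kernel of the full polyanalytic Fock space
-/

namespace Pool.Agent.W2helper14.TF

open MeasureTheory Complex Filter Topology
open scoped ENNReal ComplexConjugate BoundedContinuousFunction

noncomputable section

open TP (gm H dens BDO IsBand Bdm pa)

/-- moments of the Gaussian measure -/
lemma moment (m : ℕ) : ∫ t : ℂ, ‖t‖ ^ (2 * m) ∂gm = m.factorial := by
  rw [gm_integral_real]
  have h1 : ∀ t : ℂ, rho t ^ 2 * ‖t‖ ^ (2 * m) =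
      (1 / Real.pi) * (‖t‖ ^ ((2 * m : ℕ) : ℝ) * Real.exp (-‖t‖ ^ (2 : ℝ))) := by
    intro t
    rw [rho_sq, TP.dens, ENNReal.toReal_ofReal (by positivity), Real.rpow_natCast]
    norm_num
    ring
  simp_rw [h1]
  rw [integral_const_mul, Complex.integral_rpow_mul_exp_neg_rpow (by norm_num)
    (by have : (0 : ℝ) ≤ ((2 * m : ℕ) : ℝ) := Nat.cast_nonneg _
        linarith)]
  have h2 : (((2 * m : ℕ) : ℝ) + 2) / 2 = (m : ℝ) + 1 := by push_cast; ring
  rw [h2, Real.Gamma_nat_eq_factorial]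
  have := Real.pi_ne_zero
  field_simp

/-- coefficients of the Laguerre polynomial `L^{(1)}_{n-1}` -/
def lc (n i : ℕ) : ℝ := (n.choose (i + 1) : ℝ) * (-1) ^ i / (i.factorial : ℝ)

/-- the kernel `L^{(1)}_{n-1}(|z|²)` -/
def LL (n : ℕ) (z : ℂ) : ℝ := ∑ i ∈ Finset.range n, lc n i * ‖z‖ ^ (2 * i)

/-- the combinatorial identity behind the reproducing property -/
lemma comb (n m : ℕ) (hm : m < n) :
    ∑ i ∈ Finset.range n, lc n i * ((i + m).factorial : ℝ) = if m = 0 then 1 else 0 := by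
  -- `q(l) = l (l+1) ... (l+m-1)`
  have h1 := Polynomial.fwdDiff_iter_eq_zero_of_degree_lt (R := ℝ) (P := ascPochhammer ℝ m) (n := n)
    (by rw [ascPochhammer_natDegree]; exact hm)
  have h2 := congrFun h1 0
  rw [fwdDiff_iter_eq_sum_shift] at h2
  simp only [Pi.zero_apply, zero_add] at h2
  rw [Finset.sum_range_succ'] at h2
  have h3 : ∀ i ∈ Finset.range n, (((-1 : ℤ) ^ (n - (i + 1)) * n.choose (i + 1)) •
      Polynomial.eval ((i + 1) • (1 : ℝ)) (ascPochhammer ℝ m)) =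
      (-1) ^ (n + 1) * (lc n i * ((i + m).factorial : ℝ)) := by
    intro i hi
    have hi' : i < n := Finset.mem_range.1 hi
    have e1 : ((i + 1) • (1 : ℝ)) = ((i + 1 : ℕ) : ℝ) := by simp
    have e2 : Polynomial.eval ((i + 1 : ℕ) : ℝ) (ascPochhammer ℝ m) * (i.factorial : ℝ) =
        ((i + m).factorial : ℝ) := by
      rw [← ascPochhammer_eval_cast, ascPochhammer_nat_eq_ascFactorial]
      have := Nat.factorial_mul_ascFactorial i m
      rw [mul_comm]
      exact_mod_cast this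
    have hf : (i.factorial : ℝ) ≠ 0 := by exact_mod_cast i.factorial_ne_zero
    have e3 : ((-1 : ℝ)) ^ (n - (i + 1)) = (-1) ^ (n + 1) * (-1) ^ i := by
      have : (-1 : ℝ) ^ (n + 1) = (-1) ^ (n - (i + 1)) * (-1) ^ (i + 2) := by
        rw [← pow_add]; congr 1; omega
      rw [this]
      have e4 : ((-1 : ℝ)) ^ (i + 2) * (-1) ^ i = 1 := by
        rw [← pow_add]
        exact Even.neg_one_pow ⟨i + 1, by ring⟩
      rw [mul_assoc, e4, mul_one]
    rw [e1, zsmul_eq_mul]
    push_cast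
    rw [e3, ← e2, lc]
    push_cast
    field_simp
  rw [Finset.sum_congr rfl h3, ← Finset.mul_sum] at h2
  simp only [Nat.sub_zero, Nat.choose_zero_right, zero_smul] at h2
  have h5 : Polynomial.eval (0 : ℝ) (ascPochhammer ℝ m) = if m = 0 then 1 else 0 := by
    rw [ascPochhammer_eval_zero]
  rw [h5] at h2
  have h6 : ((-1 : ℝ)) ^ n * (-1) ^ n = 1 := by rw [← mul_pow]; simp
  have h7 : ((-1 : ℝ)) ^ n * ((-1) ^ (n + 1) * ∑ i ∈ Finset.range n, lc n i * ((i + m).factorial : ℝ) +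
      (((-1 : ℤ) ^ n * ((1 : ℕ) : ℤ)) • (if m = 0 then (1 : ℝ) else 0))) = 0 := by
    rw [h2, mul_zero]
  rw [zsmul_eq_mul] at h7
  push_cast at h7
  rw [pow_succ] at h7
  have h8 : (∑ i ∈ Finset.range n, lc n i * ((i + m).factorial : ℝ)) =
      if m = 0 then (1 : ℝ) else 0 := by
    linear_combination (-1 : ℝ) * h7 + ((if m = 0 then (1 : ℝ) else 0) -
      ∑ i ∈ Finset.range n, lc n i * ((i + m).factorial : ℝ)) * h6
  exact h8

lemma LL_cont (n : ℕ) : Continuous (LL n) := by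
  unfold LL
  fun_prop

lemma integrable_pow (m : ℕ) : Integrable (fun t : ℂ => ‖t‖ ^ (2 * m)) gm :=
  TP.Rep.pol_int (C := 1) (n := 2 * m) (by fun_prop) (TP.Rep.pow_bd (2 * m))

lemma LL_moment (n m : ℕ) (hm : m < n) :
    ∫ t : ℂ, LL n t * ‖t‖ ^ (2 * m) ∂gm = if m = 0 then 1 else 0 := by
  have h1 : ∀ t : ℂ, LL n t * ‖t‖ ^ (2 * m) =
      ∑ i ∈ Finset.range n, lc n i * ‖t‖ ^ (2 * (i + m)) := by
    intro t
    rw [LL, Finset.sum_mul]
    refine Finset.sum_congr rfl fun i _ => ?_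
    rw [mul_add, pow_add]; ring
  simp_rw [h1]
  rw [integral_finsetSum _ fun i _ => (integrable_pow (i + m)).const_mul _]
  simp_rw [integral_const_mul, moment]
  exact comb n m hm

lemma LL_growth (n : ℕ) : ∃ (C : ℝ) (N : ℕ), ∀ z, |LL n z| ≤ C * (1 + ‖z‖) ^ N := by
  refine ⟨∑ i ∈ Finset.range n, |lc n i|, 2 * n, fun z => ?_⟩
  rw [LL, Finset.sum_mul]
  refine (Finset.abs_sum_le_sum_abs _ _).trans (Finset.sum_le_sum fun i hi => ?_)
  have hi' : i < n := Finset.mem_range.1 hi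
  have hz := norm_nonneg z
  rw [abs_mul]
  refine mul_le_mul_of_nonneg_left ?_ (abs_nonneg _)
  rw [abs_of_nonneg (by positivity)]
  calc ‖z‖ ^ (2 * i) ≤ (1 + ‖z‖) ^ (2 * i) := by gcongr; linarith
    _ ≤ (1 + ‖z‖) ^ (2 * n) := pow_le_pow_right₀ (by linarith) (by omega)

/-- zeros of radial polynomials are null sets -/
lemma radial_ne (p : Polynomial ℝ) (hp : p ≠ 0) : ∀ᵐ z : ℂ, p.eval ‖z‖ ≠ 0 := by
  have h1 : ∀ r : ℝ, (volume : Measure ℂ) (Metric.sphere 0 r) = 0 := fun r =>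
    Measure.addHaar_sphere volume 0 r
  have h2 : (volume : Measure ℂ) (⋃ r ∈ p.roots.toFinset, Metric.sphere (0 : ℂ) r) = 0 := by
    have := (measure_biUnion_null_iff (μ := (volume : Measure ℂ))
      (s := fun r : ℝ => Metric.sphere (0 : ℂ) r) p.roots.toFinset.countable_toSet).2
      (fun r _ => h1 r)
    simpa only [Finset.mem_coe] using this
  refine measure_mono_null ?_ h2
  intro z hz
  simp only [Set.mem_compl_iff, Set.mem_ofPred_eq, not_not] at hz
  simp only [Set.mem_iUnion, mem_sphere_zero_iff_norm, exists_prop, exists_eq_right']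
  rw [Multiset.mem_toFinset, Polynomial.mem_roots hp]
  exact hz

lemma LL_ne0 (n : ℕ) (hn : 0 < n) : ∀ᵐ z : ℂ, LL n z ≠ 0 := by
  set p : Polynomial ℝ := ∑ i ∈ Finset.range n, Polynomial.C (lc n i) * Polynomial.X ^ (2 * i)
    with hp
  have h1 : ∀ r : ℝ, p.eval r = ∑ i ∈ Finset.range n, lc n i * r ^ (2 * i) := by
    intro r
    rw [hp, Polynomial.eval_finsetSum]
    simp
  have h2 : p.eval 0 = n := by
    rw [h1, Finset.sum_eq_single 0]
    · simp [lc]
    · intro i _ hi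
      simp [hi]
    · intro h
      simp at h
      omega
  have hp0 : p ≠ 0 := by
    intro h
    rw [h, Polynomial.eval_zero] at h2
    have : (n : ℝ) ≠ 0 := by exact_mod_cast hn.ne'
    exact this h2.symm
  filter_upwards [radial_ne p hp0] with z hz
  rw [h1] at hz
  exact hz

lemma RK_LL (n : ℕ) (hn : 0 < n) : RK (LL n) where
  cont := LL_cont n
  even := fun z => by rw [LL, LL, norm_neg]
  growth := LL_growth n
  ne0 := LL_ne0 n hn

end

end Pool.Agent.W2helper14.TF
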