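import Pool.Agent.W2helper14.TF.L

/-!
# `Q` is the projection onto the polyanalytic Fock space
-/

namespace Pool.Agent.W2helper14.TF

open MeasureTheory Complex Filter Topology
open scoped ENNReal ComplexConjugate BoundedContinuousFunction

noncomputable section

open TP (gm H dens BDO IsBand Bdm pa)

lemma LL_cplx (n : ℕ) (w : ℂ) :
    ((LL n w : ℝ) : ℂ) = ∑ i ∈ Finset.range n, (lc n i : ℂ) * (w ^ i * conj w ^ i) := by
  unfold LL
  push_cast
  refine Finset.sum_congr rfl fun i _ => ?_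
  have hc : w * conj w = (‖w‖ : ℂ) ^ 2 := by
    rw [Complex.mul_conj, Complex.normSq_eq_norm_sq]
    push_cast
    rfl
  rw [pow_mul, ← hc, mul_pow]

/-- the operator `Q` maps into polyanalytic functions -/
lemma PA_Q (n : ℕ) (f : H) :
    PA n (fun z => ∫ x, cexp (z * conj x) * ((LL n (x - z) : ℝ) : ℂ) * f x ∂gm) := by
  have h1 : ∀ z, (∫ x, cexp (z * conj x) * ((LL n (x - z) : ℝ) : ℂ) * f x ∂gm) =
      ∑ i ∈ Finset.range n, (lc n i : ℂ) * GG f i i 0 0 z := by
    intro z
    unfold GG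
    simp_rw [← integral_const_mul]
    rw [← integral_finsetSum _ fun i _ => ((EB_GG i i 0 0 z).integrable f).const_mul _]
    refine integral_congr_ae (ae_of_all _ fun x => ?_)
    simp only
    rw [LL_cplx, Finset.mul_sum, Finset.sum_mul]
    refine Finset.sum_congr rfl fun i _ => ?_
    rw [map_sub]
    ring
  refine (PA.sum (n := n) (Finset.range n) (fun i z => (lc n i : ℂ) * GG f i i 0 0 z)
    (fun i hi => ?_)).congr h1
  exact (((PA_GG f i i 0 0).mono (Nat.succ_le_of_lt (Finset.mem_range.1 hi))).mulE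
    (differentiable_const _))

lemma EB_RK {L : ℂ → ℝ} (hL : RK L) (z : ℂ) : EB (fun x => ((L (x - z) : ℝ) : ℂ)) := by
  obtain ⟨C, N, hC⟩ := hL.growth
  have hC0 : 0 ≤ C := by
    have := (abs_nonneg _).trans (hC 0)
    simpa using this
  have hc := hL.cont
  refine ⟨by fun_prop, C * (N.factorial * Real.exp (1 + ‖z‖)), 1, by positivity, zero_le_one,
    fun x => ?_⟩
  rw [Complex.norm_real, Real.norm_eq_abs]
  have hn := norm_nonneg (x - z)
  have h1 : (1 + ‖x - z‖) ^ N ≤ N.factorial * Real.exp (1 + ‖x - z‖) := by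
    have := Real.pow_div_factorial_le_exp (1 + ‖x - z‖) (by linarith) N
    rw [div_le_iff₀ (by positivity)] at this
    linarith
  have h2 : Real.exp (1 + ‖x - z‖) ≤ Real.exp (1 + ‖z‖) * Real.exp (1 * ‖x‖) := by
    rw [← Real.exp_add]
    refine Real.exp_le_exp.2 ?_
    have := norm_sub_le x z
    linarith
  calc |L (x - z)| ≤ C * (1 + ‖x - z‖) ^ N := hC _
    _ ≤ C * (N.factorial * Real.exp (1 + ‖x - z‖)) := mul_le_mul_of_nonneg_left h1 hC0
    _ ≤ C * (N.factorial * (Real.exp (1 + ‖z‖) * Real.exp (1 * ‖x‖))) := by gcongr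
    _ = _ := by ring

lemma pa_cont {n : ℕ} {h : ℕ → ℂ → ℂ} (hh : ∀ j, Differentiable ℂ (h j)) :
    Continuous (pa n h) := by
  unfold TP.pa
  refine continuous_finsetSum _ fun j _ => ?_
  have := (hh j).continuous
  fun_prop

/-- shifted polyanalytic functions -/
lemma PA_shift (c : ℂ) (j : ℕ) : ∀ g : ℂ → ℂ, Differentiable ℂ g →
    PA (j + 1) (fun t => g t * (conj t + c) ^ j) := by
  induction j with
  | zero =>
    intro g hg
    exact (PA.entire hg).congr fun t => by simp
  | succ j ih =>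
    intro g hg
    have h1 := (ih g hg).conjMul
    have h2 := ((ih g hg).mulE (differentiable_const c)).mono (Nat.le_succ _)
    refine (h1.add h2).congr fun t => ?_
    rw [pow_succ]; ring

lemma PA_G (n : ℕ) {h : ℕ → ℂ → ℂ} (hh : ∀ j, Differentiable ℂ (h j)) (z : ℂ) :
    PA n (fun t => cexp (-(conj z * t)) * pa n h (t + z)) := by
  have h1 : PA n (fun t => pa n h (t + z)) := by
    refine (PA.sum (n := n) (Finset.range n) (fun j t => h j (t + z) * (conj t + conj z) ^ j)
      (fun j hj => ?_)).congr fun t => ?_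
    · refine (PA_shift (conj z) j (fun t => h j (t + z)) ?_).mono
        (Nat.succ_le_of_lt (Finset.mem_range.1 hj))
      exact (hh j).comp (differentiable_id.add_const z)
    · rw [TP.pa, map_add]
  exact h1.mulE (by fun_prop)

/-- integrability with respect to `gm` from the flat integrability -/
lemma gm_integrable_of {F : ℂ → ℂ}
    (hF : Integrable (fun z : ℂ => ((Real.exp (-‖z‖ ^ 2) / Real.pi : ℝ) : ℂ) * F z) volume) :
    Integrable F gm := by
  rw [TP.gm_def, integrable_withDensity_iff_integrable_smul' TP.dens_meas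
    (Filter.Eventually.of_forall fun z => ENNReal.ofReal_lt_top)]
  refine hF.congr (ae_of_all _ fun z => ?_)
  simp only
  unfold TP.dens
  rw [ENNReal.toReal_ofReal (by positivity), Complex.real_smul]

/-- shift of Gaussian integrals -/
lemma gm_shift (z : ℂ) (t : ℂ) (A B : ℂ) :
    ((Real.exp (-‖t + z‖ ^ 2) / Real.pi : ℝ) : ℂ) * (cexp (z * conj (t + z)) * A * B) =
      ((Real.exp (-‖t‖ ^ 2) / Real.pi : ℝ) : ℂ) * (A * (cexp (-(conj z * t)) * B)) := by
  have key : ((Real.exp (-‖t + z‖ ^ 2) : ℝ) : ℂ) * cexp (z * conj (t + z)) =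
      ((Real.exp (-‖t‖ ^ 2) : ℝ) : ℂ) * cexp (-(conj z * t)) := by
    rw [Complex.ofReal_exp, Complex.ofReal_exp, ← Complex.exp_add, ← Complex.exp_add]
    congr 1
    have h1 : ∀ x : ℂ, (((‖x‖ ^ 2 : ℝ)) : ℂ) = x * conj x := by
      intro x
      rw [Complex.mul_conj, Complex.normSq_eq_norm_sq]
    have h2 : ∀ x : ℂ, ((-‖x‖ ^ 2 : ℝ) : ℂ) = -(x * conj x) := by
      intro x
      rw [← h1 x]; push_cast; ring
    rw [h2, h2, map_add]
    ring
  rw [Complex.ofReal_div, Complex.ofReal_div, div_mul_eq_mul_div, div_mul_eq_mul_div]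
  congr 1
  linear_combination (A * B) * key

/-- reproducing property at the origin -/
lemma repro0 (n : ℕ) (hn : 0 < n) {k : ℕ → ℂ → ℂ} (hk : ∀ j, Differentiable ℂ (k j))
    (hi : Integrable (fun t => ((LL n t : ℝ) : ℂ) * pa n k t) gm) :
    ∫ t, ((LL n t : ℝ) : ℂ) * pa n k t ∂gm = pa n k 0 := by
  have hc : Continuous fun t => ((LL n t : ℝ) : ℂ) * pa n k t := by
    have h1 := LL_cont n
    have h2 := pa_cont (n := n) hk
    fun_prop
  set a : ℕ → ℂ := fun m => iteratedDeriv m (k m) 0 / m.factorial with ha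
  rw [TP.Rep.rot_avg_gm (G := fun R => ((∑ i ∈ Finset.range n, lc n i * R ^ (2 * i) : ℝ) : ℂ) *
    ∑ m ∈ Finset.range n, (R : ℂ) ^ (2 * m) * a m) hi hc]
  · have h1 : ∀ t : ℂ, ((∑ i ∈ Finset.range n, lc n i * ‖t‖ ^ (2 * i) : ℝ) : ℂ) *
        ∑ m ∈ Finset.range n, (‖t‖ : ℂ) ^ (2 * m) * a m =
        ∑ m ∈ Finset.range n, ((LL n t * ‖t‖ ^ (2 * m) : ℝ) : ℂ) * a m := by
      intro t
      rw [Finset.mul_sum]
      refine Finset.sum_congr rfl fun m _ => ?_
      change ((LL n t : ℝ) : ℂ) * _ = _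
      push_cast
      ring
    simp_rw [h1]
    have h2 : ∀ m, Integrable (fun t : ℂ => LL n t * ‖t‖ ^ (2 * m)) gm := by
      intro m
      obtain ⟨C, N, hC⟩ := LL_growth n
      have hcc := LL_cont n
      refine TP.Rep.pol_int (C := C) (n := N + 2 * m) (by fun_prop) fun z => ?_
      rw [abs_mul]
      have h3 := TP.Rep.pow_bd (2 * m) z
      rw [one_mul] at h3
      rw [pow_add, ← mul_assoc]
      exact mul_le_mul (hC z) h3 (abs_nonneg _) ((abs_nonneg _).trans (hC z))
    rw [integral_finsetSum _ fun m _ => ((h2 m).ofReal).mul_const _]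
    simp_rw [integral_mul_const, integral_complex_ofReal]
    rw [Finset.sum_congr rfl fun m hm => by rw [LL_moment n m (Finset.mem_range.1 hm)]]
    rw [Finset.sum_eq_single 0]
    · rw [TP.pa, Finset.sum_eq_single 0]
      · simp [ha]
      · intro j _ hj
        simp [hj]
      · intro h
        simp at h
        omega
    · intro m _ hm
      simp [hm]
    · intro h
      simp at h
      omega
  · intro R hR
    have h1 : (fun t => ((LL n t : ℝ) : ℂ) * pa n k t) =
        fun t => (fun r : ℝ => ((∑ i ∈ Finset.range n, lc n i * r ^ (2 * i) : ℝ) : ℂ)) ‖t‖ *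
          (∑ m ∈ Finset.range n, (1 : ℂ) * ((conj t) ^ m * k m t)) := by
      funext t
      simp only [one_mul]
      congr 1
      exact Finset.sum_congr rfl fun j _ => by ring
    rw [h1]
    refine (TP.Rep.circ_radial (fun r : ℝ => ((∑ i ∈ Finset.range n, lc n i * r ^ (2 * i) : ℝ) : ℂ))
      (fun t => ∑ m ∈ Finset.range n, (1 : ℂ) * ((conj t) ^ m * k m t)) R hR).trans ?_
    rw [TP.Rep.circ_sum n (fun _ => 1) hk R hR]
    simp only [one_mul]
    rfl

/-- reproducing property -/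
lemma repro (n : ℕ) (hn : 0 < n) {f : H} {h : ℕ → ℂ → ℂ} (hh : ∀ j, Differentiable ℂ (h j))
    (he : f =ᵐ[gm] pa n h) (z : ℂ) :
    ∫ x, cexp (z * conj x) * ((LL n (x - z) : ℝ) : ℂ) * f x ∂gm = pa n h z := by
  have hI := ((EB.exp z).mul (EB_RK (RK_LL n hn) z)).integrable f
  have hI2 : Integrable (fun x => cexp (z * conj x) * ((LL n (x - z) : ℝ) : ℂ) * pa n h x) gm := by
    refine hI.congr ?_
    filter_upwards [he] with x hx
    rw [hx]
  have e1 : ∫ x, cexp (z * conj x) * ((LL n (x - z) : ℝ) : ℂ) * f x ∂gm =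
      ∫ x, cexp (z * conj x) * ((LL n (x - z) : ℝ) : ℂ) * pa n h x ∂gm := by
    refine integral_congr_ae ?_
    filter_upwards [he] with x hx
    rw [hx]
  obtain ⟨k, hk, ek⟩ := PA_G n hh z
  have e2 : ∀ t : ℂ, ((Real.exp (-‖t + z‖ ^ 2) / Real.pi : ℝ) : ℂ) *
      (cexp (z * conj (t + z)) * ((LL n (t + z - z) : ℝ) : ℂ) * pa n h (t + z)) =
      ((Real.exp (-‖t‖ ^ 2) / Real.pi : ℝ) : ℂ) * (((LL n t : ℝ) : ℂ) * pa n k t) := by
    intro t
    rw [gm_shift, ← ek, add_sub_cancel_right]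
  have hI3 : Integrable (fun t => ((LL n t : ℝ) : ℂ) * pa n k t) gm := by
    refine gm_integrable_of ?_
    have h1 := (TP.Rep.gm_integrable hI2).comp_add_right z
    refine h1.congr (ae_of_all _ fun t => ?_)
    exact e2 t
  rw [e1, gm_integral_cplx, ← integral_add_right_eq_self _ z]
  simp_rw [e2]
  rw [← gm_integral_cplx, repro0 n hn hk hI3, ← ek]
  simp

end

end Pool.Agent.W2helper14.TF
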