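import Pool.Agent.W2helper14.TF.N

/-!
# The full polyanalytic Fock space
-/

namespace Pool.Agent.W2helper14.TF

open MeasureTheory Complex Filter Topology
open scoped ENNReal ComplexConjugate BoundedContinuousFunction

noncomputable section

open TP (gm H dens BDO IsBand Bdm pa Poly)

lemma Q_poly1 (n : ℕ) (hn : 0 < n) (f : H) : QQ (ker_kap (RK_LL n hn)) f ∈ Poly n := by
  obtain ⟨h, hh, e⟩ := PA_Q n f
  refine ⟨h, hh, ?_⟩
  filter_upwards [QQ_coe (RK_LL n hn) f] with z hz
  rw [hz, ← e]

lemma Q_poly2 (n : ℕ) (hn : 0 < n) (f : H) (hf : f ∈ Poly n) :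
    QQ (ker_kap (RK_LL n hn)) f = f := by
  obtain ⟨h, hh, e⟩ := hf
  apply Lp.ext
  filter_upwards [QQ_coe (RK_LL n hn) f, e] with z hz h1
  rw [hz, h1]
  exact repro n hn hh e z

lemma Poly_zero : (Poly 0 : Submodule ℂ H) = ⊥ := by
  rw [Submodule.eq_bot_iff]
  rintro f ⟨h, _, e⟩
  apply Lp.ext
  filter_upwards [e, Lp.coeFn_zero ℂ 2 gm] with z h1 h2
  rw [h1, h2, TP.pa]
  simp

lemma Poly_closed (n : ℕ) : IsClosed (Poly n : Set H) := by
  rcases Nat.eq_zero_or_pos n with rfl | hn
  · rw [Poly_zero]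
    exact isClosed_singleton
  · have h1 : (Poly n : Set H) = {f | QQ (ker_kap (RK_LL n hn)) f = f} := by
      ext f
      constructor
      · exact fun h => Q_poly2 n hn f h
      · intro h
        rw [Set.mem_ofPred_eq] at h
        rw [← h]
        exact Q_poly1 n hn f
    rw [h1]
    exact isClosed_eq (QQ _).continuous continuous_id

instance Poly_complete (n : ℕ) : CompleteSpace (Poly n) := (Poly_closed n).completeSpace_coe

/-- the closed linear span of the products of two Toeplitz operators with bounded continuous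
symbols -/
def TwoFold (F : Submodule ℂ H) [CompleteSpace F] : Set (F →L[ℂ] F) :=
  closure (Submodule.span ℂ {T : F →L[ℂ] F | ∃ a b : ℂ →ᵇ ℂ,
    T = (TP.Toep F fun z => a z) ∘L (TP.Toep F fun z => b z)} : Set (F →L[ℂ] F))

lemma bandDom_TP (F : Submodule ℂ H) [CompleteSpace F] : TP.BandDom F = bandDom F := rfl

lemma toepAlg_TP (F : Submodule ℂ H) [CompleteSpace F] :
    (TP.ToepAlg F : Set (F →L[ℂ] F)) = toepAlg F := rfl

lemma toepTwo_TP (F : Submodule ℂ H) [CompleteSpace F] : TwoFold F = toepTwo F := rfl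

theorem poly_main (n : ℕ) :
    TP.BandDom (Poly n) = (TP.ToepAlg (Poly n) : Set (Poly n →L[ℂ] Poly n)) ∧
      (TP.ToepAlg (Poly n) : Set (Poly n →L[ℂ] Poly n)) = TwoFold (Poly n) := by
  rcases Nat.eq_zero_or_pos n with rfl | hn
  · have hs : ∀ T : Poly 0 →L[ℂ] Poly 0, T = 0 := by
      intro T
      ext1 f
      have h1 : ((T f : Poly 0) : H) ∈ (⊥ : Submodule ℂ H) := by
        rw [← Poly_zero]; exact (T f).2
      have h2 : ((T f : Poly 0) : H) = 0 := (Submodule.mem_bot ℂ).1 h1
      exact Subtype.ext h2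
    have e1 : TP.BandDom (Poly 0) = Set.univ := by
      ext T
      simp only [Set.mem_univ, iff_true]
      rw [hs T]
      change extP (Poly 0) 0 ∈ BDO
      rw [map_zero]
      have h0 := TP.piece_BDO.2.2.2.2 0 _ (TP.piece_BDO.2.2.1 (fun _ => 0)
        ⟨measurable_const, 0, fun z => by simp⟩)
      rwa [zero_smul] at h0
    have e2 : (TP.ToepAlg (Poly 0) : Set (Poly 0 →L[ℂ] Poly 0)) = Set.univ := by
      ext T
      simp only [Set.mem_univ, iff_true]
      have h1 := TP.Toep_mem (Poly 0) (a := fun _ => 0) ⟨measurable_const, 0, fun z => by simp⟩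
      rw [hs (TP.Toep (Poly 0) _)] at h1
      rw [hs T]
      exact h1
    have e3 : TwoFold (Poly 0) = Set.univ := by
      ext T
      simp only [Set.mem_univ, iff_true]
      rw [hs T]
      exact subset_closure (Submodule.zero_mem _)
    rw [e1, e2, e3]
    exact ⟨rfl, rfl⟩
  · have := bandDom_eq (Poly n) (ker_kap (RK_LL n hn)) (Q_poly1 n hn) (Q_poly2 n hn)
    rw [bandDom_TP, toepAlg_TP, toepTwo_TP]
    exact this

end

end Pool.Agent.W2helper14.TF
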