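import Pool.Agent.W2helper14.TF.O
import Pool.Agent.W2helper17.TP.Clo2
import Pool.Agent.W2helper17.TP.Res

/-!
# The true polyanalytic Fock spaces
-/

namespace Pool.Agent.W2helper14.TF

open MeasureTheory Complex Filter Topology
open scoped ENNReal ComplexConjugate BoundedContinuousFunction

noncomputable section

open TP (gm H dens BDO IsBand Bdm pa Poly Fock tp)

/-- the radial kernel of the true polyanalytic Fock space, not normalised -/
def lg (j : ℕ) (z : ℂ) : ℝ := TP.Rep.lag j ‖z‖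

lemma lg_cont (j : ℕ) : Continuous (lg j) := (TP.Rep.lag_cont j).comp continuous_norm

lemma lg_growth (j : ℕ) : ∃ (C : ℝ) (N : ℕ), ∀ z, |lg j z| ≤ C * (1 + ‖z‖) ^ N :=
  ⟨_, _, fun z => TP.Rep.lag_bd j ‖z‖ (norm_nonneg z)⟩

lemma lg_memLp (j : ℕ) : MemLp (fun z => ((lg j z : ℝ) : ℂ)) 2 gm := by
  obtain ⟨C, N, h⟩ := lg_growth j
  have := lg_cont j
  exact TP.piece_POL _ (by fun_prop) ⟨C, N, fun z => by rw [Complex.norm_real]; exact h z⟩

/-- the normalising constant -/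
def cj (j : ℕ) : ℝ := ∫ z, lg j z ^ 2 ∂gm

lemma cj_pos (j : ℕ) : 0 < cj j := by
  have h1 := lg_cont j
  have hsq : Integrable (fun z : ℂ => lg j z ^ 2) gm := by
    have := (memLp_two_iff_integrable_sq_norm (lg_memLp j).1).1 (lg_memLp j)
    refine this.congr ?_
    filter_upwards with z
    rw [Complex.norm_real, Real.norm_eq_abs, sq_abs]
  exact TP.Rep.gm_pos (φ := fun z => lg j z ^ 2) (by fun_prop) (fun z => sq_nonneg _) hsq (a := 0)
    (by simp [lg, TP.Rep.lag_zero])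

lemma lg_rep (j : ℕ) (g : ℂ → ℂ) (hg : Differentiable ℂ g) (hL : MemLp (tp j g) 2 gm) :
    ∫ z, conj (((lg j z : ℝ) : ℂ)) * tp j g z ∂gm = cj j * tp j g 0 := by
  have hint : Integrable (fun z => conj (((lg j z : ℝ) : ℂ)) * tp j g z) gm := by
    simp only [Complex.conj_ofReal]
    exact MemLp.integrable_mul (lg_memLp j) hL
  have hcont : Continuous (fun z => conj (((lg j z : ℝ) : ℂ)) * tp j g z) := by
    have h1 := lg_cont j
    have h2 := TP.Rep.tp_cont (j := j) hg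
    fun_prop
  rw [TP.Rep.rot_avg_gm (G := fun R => ((TP.Rep.lag j R ^ 2 : ℝ) : ℂ) * tp j g 0) hint hcont]
  · rw [integral_mul_const, integral_complex_ofReal]
    rfl
  · intro R hR
    simp only [Complex.conj_ofReal, lg]
    rw [TP.Rep.circ_radial (fun r => ((TP.Rep.lag j r : ℝ) : ℂ)) (tp j g) R hR,
      TP.Rep.circ_tp j hg R hR]
    push_cast
    ring

/-- the kernel -/
def Lj (j : ℕ) (z : ℂ) : ℝ := lg j z / cj j

lemma lg_ne0 (j : ℕ) : ∀ᵐ z : ℂ, lg j z ≠ 0 := by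
  set p : Polynomial ℝ := ∑ m ∈ Finset.range (j + 1), Polynomial.C ((1 / (j.factorial : ℝ)) *
    ((j.choose m : ℝ) * (-1) ^ m) * ((j.descFactorial (j - m) : ℕ) : ℝ)) *
      Polynomial.X ^ (2 * m) with hp
  have h1 : ∀ r : ℝ, p.eval r = TP.Rep.lag j r := by
    intro r
    rw [hp, Polynomial.eval_finsetSum]
    simp [TP.Rep.lag]
  have hp0 : p ≠ 0 := by
    intro h
    have h2 := h1 0
    rw [h, Polynomial.eval_zero, TP.Rep.lag_zero] at h2
    exact zero_ne_one h2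
  filter_upwards [radial_ne p hp0] with z hz
  rw [h1] at hz
  exact hz

lemma RK_Lj (j : ℕ) : RK (Lj j) where
  cont := (lg_cont j).div_const _
  even := fun z => by rw [Lj, Lj, lg, lg, norm_neg]
  growth := by
    obtain ⟨C, N, h⟩ := lg_growth j
    refine ⟨C / cj j, N, fun z => ?_⟩
    rw [Lj, abs_div, abs_of_pos (cj_pos j), div_mul_eq_mul_div]
    exact div_le_div_of_nonneg_right (h z) (cj_pos j).le
  ne0 := by
    filter_upwards [lg_ne0 j] with z hz
    exact div_ne_zero hz (cj_pos j).ne'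

lemma lg_mem (j : ℕ) : (lg_memLp j).toLp _ ∈ Fock j := by
  refine ⟨fun u => u ^ j, differentiable_id.pow j, ?_⟩
  filter_upwards [MemLp.coeFn_toLp (lg_memLp j)] with z hz
  rw [hz]
  exact TP.Rep.lag_eq j z

/-- `Q` in terms of the coherent states -/
lemma Q_coh (j : ℕ) (f : H) : QQ (ker_kap (RK_Lj j)) f =ᵐ[gm] fun z =>
    (1 / cj j : ℂ) * (((Real.exp (‖z‖ ^ 2 / 2) : ℝ) : ℂ) *
      inner ℂ (TP.W z ((lg_memLp j).toLp _)) f) := by
  filter_upwards [QQ_coe (RK_Lj j) f] with z hz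
  rw [hz, inner_eq, ← integral_const_mul, ← integral_const_mul]
  refine integral_congr_ae ?_
  have h0 := TP.W_congr z (MemLp.coeFn_toLp (lg_memLp j))
  filter_upwards [h0] with x hx
  rw [hx, map_mul, Complex.conj_ofReal, Lj, TP.wfac, ← Complex.exp_conj]
  have h1 : ((Real.exp (‖z‖ ^ 2 / 2) : ℝ) : ℂ) *
      cexp (conj (x * conj z - ((‖z‖ ^ 2 / 2 : ℝ) : ℂ))) = cexp (z * conj x) := by
    rw [Complex.ofReal_exp, ← Complex.exp_add]
    congr 1
    rw [map_sub, map_mul, Complex.conj_conj, Complex.conj_ofReal]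
    ring
  push_cast at h1 ⊢
  rw [← h1]
  have hc : (cj j : ℂ) ≠ 0 := by exact_mod_cast (cj_pos j).ne'
  ring

lemma Fock_closed' (j : ℕ) : IsClosed (Fock j : Set H) := (TP.piece_CLO TP.piece_OM TP.piece_POL j).1

instance Fock_complete' (j : ℕ) : CompleteSpace (Fock j) := (Fock_closed' j).completeSpace_coe

lemma Q_fock2 (j : ℕ) (f : H) (hf : f ∈ Fock j) : QQ (ker_kap (RK_Lj j)) f = f := by
  obtain ⟨g, hg, e⟩ := hf
  apply Lp.ext
  filter_upwards [Q_coh j f, e] with z hz h1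
  rw [hz, h1, TP.value (lg_memLp j) (lg_rep j) hg e z]
  have hc : (cj j : ℂ) ≠ 0 := by exact_mod_cast (cj_pos j).ne'
  have h2 : ((Real.exp (‖z‖ ^ 2 / 2) : ℝ) : ℂ) * ((Real.exp (-‖z‖ ^ 2 / 2) : ℝ) : ℂ) = 1 := by
    rw [← Complex.ofReal_mul, ← Real.exp_add]
    have : ‖z‖ ^ 2 / 2 + -‖z‖ ^ 2 / 2 = 0 := by ring
    rw [this]; simp
  generalize ((Real.exp (‖z‖ ^ 2 / 2) : ℝ) : ℂ) = A at h2 ⊢
  generalize ((Real.exp (-‖z‖ ^ 2 / 2) : ℝ) : ℂ) = B at h2 ⊢
  field_simp
  linear_combination (tp j g z) * h2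

lemma Q_fock1 (j : ℕ) (f : H) : QQ (ker_kap (RK_Lj j)) f ∈ Fock j := by
  have h1 : QQ (ker_kap (RK_Lj j)) f = QQ (ker_kap (RK_Lj j)) ((Fock j).starProjection f) := by
    apply Lp.ext
    filter_upwards [Q_coh j f, Q_coh j ((Fock j).starProjection f)] with z hz h2
    rw [hz, h2]
    congr 2
    have h3 : (Fock j).starProjection (TP.W z ((lg_memLp j).toLp _)) =
        TP.W z ((lg_memLp j).toLp _) :=
      Submodule.starProjection_eq_self_iff.mpr (TP.Fock_W z (lg_mem j))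
    rw [← (Fock j).inner_starProjection_left_eq_right, h3]
  rw [h1, Q_fock2 j _ (Submodule.starProjection_apply_mem _ f)]
  exact Submodule.starProjection_apply_mem _ f

theorem fock_main (j : ℕ) :
    TP.BandDom (Fock j) = (TP.ToepAlg (Fock j) : Set (Fock j →L[ℂ] Fock j)) ∧
      (TP.ToepAlg (Fock j) : Set (Fock j →L[ℂ] Fock j)) = TwoFold (Fock j) := by
  have := bandDom_eq (Fock j) (ker_kap (RK_Lj j)) (Q_fock1 j) (Q_fock2 j)
  rw [bandDom_TP, toepAlg_TP, toepTwo_TP]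
  exact this

end

end Pool.Agent.W2helper14.TF
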