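import Pool.Agent.W2helper14.TF.O
import Pool.Agent.W2helper14.TF.Q
import Pool.Agent.W2helper17.TP.Final2

/-!
# The final form of the statement
-/

namespace Pool.Agent.W2helper14.TF

open MeasureTheory Complex Filter Topology
open scoped ENNReal ComplexConjugate BoundedContinuousFunction

noncomputable section

open TP (gm H dens BDO IsBand Bdm pa Poly Sp IsBandDom genC toepSet)

section abstractalg

variable {E : Type*} [NormedAddCommGroup E] [InnerProductSpace ℂ E]

/-- the finite sums of products `U ∘ V` of two elements of the set `s` of bounded operators -/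
def twoSums (s : Set (E →L[ℂ] E)) : Set (E →L[ℂ] E) :=
  {S | ∃ (m : ℕ) (U V : ℕ → E →L[ℂ] E), (∀ i, U i ∈ s ∧ V i ∈ s) ∧
    S = ∑ i ∈ Finset.range m, U i ∘L V i}

/-- the norm limits of finite sums of products `U ∘ V` of two elements of the set `s` -/
def twoLim (s : Set (E →L[ℂ] E)) : Set (E →L[ℂ] E) := closure (twoSums s)

lemma twoSums_add {s : Set (E →L[ℂ] E)} {S T : E →L[ℂ] E}
    (hS : S ∈ twoSums s) (hT : T ∈ twoSums s) : S + T ∈ twoSums s := by
  obtain ⟨m, a, b, ha, rfl⟩ := hS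
  obtain ⟨m', a', b', ha', rfl⟩ := hT
  refine ⟨m + m', fun i => if i < m then a i else a' (i - m),
    fun i => if i < m then b i else b' (i - m), fun i => ?_, ?_⟩
  · dsimp only
    split_ifs
    · exact ha i
    · exact ha' _
  · rw [Finset.sum_range_add]
    congr 1
    · refine Finset.sum_congr rfl fun i hi => ?_
      dsimp only
      rw [if_pos (Finset.mem_range.1 hi), if_pos (Finset.mem_range.1 hi)]
    · refine Finset.sum_congr rfl fun i _ => ?_
      dsimp only
      rw [if_neg (by omega), if_neg (by omega), Nat.add_sub_cancel_left]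

lemma twoSums_smul {s : Set (E →L[ℂ] E)} (hs : ∀ (c : ℂ), ∀ U ∈ s, c • U ∈ s) (c : ℂ)
    {S : E →L[ℂ] E} (hS : S ∈ twoSums s) : c • S ∈ twoSums s := by
  obtain ⟨m, a, b, ha, rfl⟩ := hS
  refine ⟨m, fun i => c • a i, b, fun i => ⟨hs c _ (ha i).1, (ha i).2⟩, ?_⟩
  rw [Finset.smul_sum]
  refine Finset.sum_congr rfl fun i _ => ?_
  rw [ContinuousLinearMap.smul_comp]

lemma twoSums_eq {s : Set (E →L[ℂ] E)} (hs : ∀ (c : ℂ), ∀ U ∈ s, c • U ∈ s) (h0 : 0 ∈ s) :
    twoSums s = (Submodule.span ℂ {T : E →L[ℂ] E | ∃ U ∈ s, ∃ V ∈ s, T = U ∘L V} :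
      Set (E →L[ℂ] E)) := by
  apply Set.Subset.antisymm
  · rintro S ⟨m, a, b, ha, rfl⟩
    exact Submodule.sum_mem _ fun i _ => Submodule.subset_span
      ⟨a i, (ha i).1, b i, (ha i).2, rfl⟩
  · intro S hS
    induction hS using Submodule.span_induction with
    | mem T hT =>
      obtain ⟨U, hU, V, hV, rfl⟩ := hT
      refine ⟨1, fun _ => U, fun _ => V, fun _ => ⟨hU, hV⟩, ?_⟩
      rw [Finset.sum_range_one]
    | zero => exact ⟨0, fun _ => 0, fun _ => 0, fun _ => ⟨h0, h0⟩, by rw [Finset.sum_range_zero]⟩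
    | add S T _ _ hS hT => exact twoSums_add hS hT
    | smul c S _ hS => exact twoSums_smul hs c hS

end abstractalg

/-- the set of Toeplitz operators on `F` with bounded continuous symbols -/
def toepSetC (F : Submodule ℂ H) [CompleteSpace F] : Set (Sp F →L[ℂ] Sp F) :=
  {S | ∃ a : ℂ → ℂ, Continuous a ∧ Bdm a ∧ S = TP.toep F a}

lemma M_smul (c : ℂ) {a : ℂ → ℂ} (ha : Bdm a) :
    TP.M (fun z => c * a z) = c • TP.M a := by
  ext1 f
  apply Lp.ext
  have hb : Bdm (fun z => c * a z) := by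
    obtain ⟨h1, C, h2⟩ := ha
    refine ⟨h1.const_mul c, ‖c‖ * C, fun z => ?_⟩
    rw [norm_mul]
    exact mul_le_mul_of_nonneg_left (h2 z) (norm_nonneg _)
  filter_upwards [TP.M_coe hb f, TP.M_coe ha f, Lp.coeFn_smul c (TP.M a f)] with z h1 h2 h3
  rw [h1]
  change _ = (c • TP.M a f) z
  rw [h3, Pi.smul_apply, h2, smul_eq_mul, mul_assoc]

lemma toepSetC_smul (F : Submodule ℂ H) [CompleteSpace F] (c : ℂ) {U : Sp F →L[ℂ] Sp F}
    (hU : U ∈ toepSetC F) : c • U ∈ toepSetC F := by
  obtain ⟨a, ha, hb, rfl⟩ := hU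
  refine ⟨fun z => c * a z, continuous_const.mul ha, ?_, ?_⟩
  · obtain ⟨h1, C, h2⟩ := hb
    refine ⟨h1.const_mul c, ‖c‖ * C, fun z => ?_⟩
    rw [norm_mul]
    exact mul_le_mul_of_nonneg_left (h2 z) (norm_nonneg _)
  · rw [TP.toep, TP.toep, M_smul c hb]
    apply ContinuousLinearMap.ext
    intro f
    exact (map_smul (TP.proj F) c (TP.M a (TP.incl F f))).symm

lemma toepSetC_zero (F : Submodule ℂ H) [CompleteSpace F] :
    (0 : Sp F →L[ℂ] Sp F) ∈ toepSetC F := by
  have h1 := toepSetC_smul F 0 (U := TP.toep F fun _ => 0)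
    ⟨fun _ => 0, continuous_const, ⟨measurable_const, 0, fun z => by simp⟩, rfl⟩
  rwa [zero_smul] at h1

lemma twoSums_closure (F : Submodule ℂ H) [CompleteSpace F] :
    closure (twoSums (toepSetC F)) = TwoFold F := by
  rw [twoSums_eq (fun c U hU => toepSetC_smul F c hU) (toepSetC_zero F)]
  have h1 : {T : Sp F →L[ℂ] Sp F | ∃ U ∈ toepSetC F, ∃ V ∈ toepSetC F, T = U ∘L V} =
      {T : F →L[ℂ] F | ∃ a b : ℂ →ᵇ ℂ,
        T = (TP.Toep F fun z => a z) ∘L (TP.Toep F fun z => b z)} := by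
    apply Set.Subset.antisymm
    · rintro T ⟨U, ⟨a, ha, ⟨_, C, hC⟩, rfl⟩, V, ⟨b, hb, ⟨_, D, hD⟩, rfl⟩, rfl⟩
      exact ⟨BoundedContinuousFunction.ofNormedAddCommGroup a ha C hC,
        BoundedContinuousFunction.ofNormedAddCommGroup b hb D hD, rfl⟩
    · rintro T ⟨a, b, rfl⟩
      exact ⟨TP.toep F fun z => a z, ⟨fun z => a z, a.continuous,
        ⟨a.continuous.measurable, ‖a‖, a.norm_coe_le_norm⟩, rfl⟩,
        TP.toep F fun z => b z, ⟨fun z => b z, b.continuous,
        ⟨b.continuous.measurable, ‖b‖, b.norm_coe_le_norm⟩, rfl⟩, rfl⟩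
  rw [h1]
  rfl

/-- `T` is band-dominated iff it is in the C*-algebra generated by the Toeplitz operators with
bounded symbols, and iff it is a norm limit of finite sums of products of two Toeplitz operators
with bounded continuous symbols -/
def Gen (F : Submodule ℂ H) [CompleteSpace F] (T : Sp F →L[ℂ] Sp F) : Prop :=
  (IsBandDom F T ↔ T ∈ genC (toepSet F)) ∧ (IsBandDom F T ↔ T ∈ twoLim (toepSetC F))

/-- the final form: the band-dominated operators on `F` are exactly the C*-algebra generated by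
the Toeplitz operators, and are exactly the norm limits of finite sums of products of two Toeplitz
operators with bounded continuous symbols -/
theorem final_form (F : Submodule ℂ H) [CompleteSpace F]
    (h : TP.BandDom F = (TP.ToepAlg F : Set (F →L[ℂ] F)) ∧
      (TP.ToepAlg F : Set (F →L[ℂ] F)) = TwoFold F) (T : Sp F →L[ℂ] Sp F) : Gen F T := by
  refine ⟨TP.final_iff F h.1 T, ?_⟩
  rw [twoLim, twoSums_closure, ← h.2, ← h.1]
  exact Iff.rfl

end

end Pool.Agent.W2helper14.TF
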